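import Pool.Agent.R852.MX.Eq
import Pool.Agent.TH192.DT.Fin
import Pool.Agent.Helper929.Pfaffian

set_option autoImplicit false
set_option linter.unusedVariables false

/-! # Forms over the Pfaffian ideals of block diagonal skew symmetric matrices -/

namespace Pool.Agent.J6H7.SK

open Pool.Agent.TH192.DT Pool.Agent.TH192.MT Pool.Agent.W428.MOT Pool.Agent.W574.LM

variable {N k : ℕ} (c : Fin N → Fin k)

/-- The variables `x_{i,j}`: the places `(i, j)`, `i < j`, with `i` and `j` in the same block. -/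
abbrev SVar : Type := {q : Fin N × Fin N // q.1 < q.2 ∧ c q.1 = c q.2}

/-- The block diagonal skew symmetric `N × N` matrix, over `ℤ`; `c i` is the block of the row and
of the column `i`. Its entry at `(i, j)` is `x_{i,j}` if `i < j` and `-x_{j,i}` if `j < i`, for `i` and
`j` in the same block, and `0` otherwise. -/
noncomputable def skewZ : Matrix (Fin N) (Fin N) (MvPolynomial (SVar c) ℤ) :=
  Matrix.of fun i j =>
    if h : i < j ∧ c i = c j then MvPolynomial.X ⟨(i, j), h⟩
    else if h : j < i ∧ c j = c i then - MvPolynomial.X ⟨(j, i), h⟩ else 0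

/-- The size of the block `b`. -/
def bsz (b : Fin k) : ℕ := (Finset.univ.filter fun i => c i = b).card

/-- Half of the maximal rank of the matrix: the sum of the `⌊n_b / 2⌋`, `n_b` the size of the
block `b`. -/
def rkC : ℕ := ∑ b, bsz c b / 2

/-- The proper rank loci: the tuples `d`, `d b ≤ ⌊n_b / 2⌋`, which are not all maximal; the block
`b` has the rank at most `2 d b`. -/
abbrev SLoc : Type := {d : (b : Fin k) → Fin (bsz c b / 2 + 1) // ∃ b, (d b : ℕ) < bsz c b / 2}

/-- The sum of the `d b`. -/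
def SLoc.sum {c : Fin N → Fin k} (d : SLoc c) : ℕ := ∑ b, (d.1 b : ℕ)

/-- The codimension of the locus of the matrices, the block `b` of which has the rank at most
`2 d b`: the sum of the `(n_b - 2 d b) (n_b - 2 d b - 1) / 2`. -/
def SLoc.codim {c : Fin N → Fin k} (d : SLoc c) : ℕ :=
  ∑ b, (bsz c b - 2 * d.1 b) * (bsz c b - 2 * d.1 b - 1) / 2

/-- The choices of `2 p` rows. -/
abbrev PIdx (N p : ℕ) : Type := Fin (2 * p) ↪o Fin N

/-- The Pfaffian of the rows and columns `r` of the matrix. -/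
noncomputable def pfaf (p : ℕ) (r : PIdx N p) : MvPolynomial (SVar c) ℤ :=
  Pool.Agent.Helper929.pf (2 * p) ((skewZ c).submatrix r r)

/-- The variables `y_{b,J}` and `x`: for `b < B`, `J` runs over the choices of one Pfaffian of size
`2 p t` for each `t < T` with `β t = b`. -/
abbrev SFVar {T B : ℕ} (p : Fin T → ℕ) (β : Fin T → Fin B) : Type :=
  (Σ b, ((t : {t // β t = b}) → PIdx N (p t.1))) ⊕ SVar c

/-- The polynomial `∏ b, (∑_J y_{b,J} ∏_{β t = b} Pf_{J t}(x)) ^ a b` with integral coefficients in the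
variables `y_{b,J}` and `x`: for `b < B`, `J` runs over the choices of one Pfaffian `Pf_{J t}` of size
`2 p t` of the block diagonal matrix for each `t < T` with `β t = b`. -/
noncomputable def skFormZ {T B : ℕ} (p : Fin T → ℕ) (β : Fin T → Fin B) (a : Fin B → ℕ) :
    MvPolynomial (SFVar c p β) ℤ :=
  ∏ b, (∑ J : (t : {t // β t = b}) → PIdx N (p t.1), MvPolynomial.X (Sum.inl ⟨b, J⟩) *
    MvPolynomial.rename Sum.inr (∏ t, pfaf c (p t.1) (J t))) ^ a b

/-- The polynomial `∏ b, (∑_J y_{b,J} ∏_{β t = b} Pf_{J t}(x)) ^ a b` over the field `K`. -/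
noncomputable def skK (K : Type) [Field K] {T B : ℕ} (p : Fin T → ℕ) (β : Fin T → Fin B)
    (a : Fin B → ℕ) : MvPolynomial (SFVar c p β) K :=
  MvPolynomial.map (Int.castRingHom K) (skFormZ c p β a)

/-- The multiplicities of `∏ b, F_b ^ a b`: `N_d = ∑ t, a (β t) max (p t - |d|, 0)` along `E_d`, and
`a b` along the strict transform of `F_b = 0`. -/
def skMul {T B : ℕ} (p : Fin T → ℕ) (β : Fin T → Fin B) (a : Fin B → ℕ) : SLoc c ⊕ Fin B → ℕ :=
  Sum.elim (fun d => ∑ t, a (β t) * (p t - d.sum)) a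

/-- The numbers `ν`: the codimension for `E_d`, and `1` for the strict transforms. -/
def skNu (B : ℕ) : SLoc c ⊕ Fin B → ℕ := Sum.elim (fun d => d.codim) fun _ => 1

/-- The pairs `(-ν_d, N_d)`, `ν_d` the codimension of the matrices the blocks of which have the
ranks at most `2 d b`, `N_d = ∑ t, a (β t) max (p t - ∑ b, d b, 0) > 0`, and the pairs `(-1, a b)`,
`a b > 0`. -/
noncomputable def skPairs {T B : ℕ} (p : Fin T → ℕ) (β : Fin T → Fin B) (a : Fin B → ℕ) :
    Finset (ℤ × ℤ) := pairs (skNu c B) (skMul c p β a)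

/-- The motivic zeta function `∑_{d ≥ 0} [X_d] 𝕃 ^ (-n d) T ^ d` in `𝓜[[T]]` of
`f = ∏ b, (∑_J y_{b,J} ∏_{β t = b} Pf_{J t}(x)) ^ a b`, `X_d` the set of the `d`-jets over `ℂ` with origin in
`W` on which `f` has the order `d`. -/
noncomputable def skZeta {T B : ℕ} (p : Fin T → ℕ) (β : Fin T → Fin B) (a : Fin B → ℕ)
    (W : Set (Pt ℂ (SFVar c p β))) : PowerSeries (MK ℂ) :=
  zetaM (skK c ℂ p β a) W {c | c ≠ 0}

end Pool.Agent.J6H7.SK
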