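import Pool.Agent.TH192.MT.Skew
import Pool.Agent.J6H7.BD.Rat

set_option autoImplicit false
set_option linter.unusedSectionVars false
set_option linter.unusedVariables false

/-! # Block diagonal skew symmetric matrices: the recursion -/

namespace Pool.Agent.J6H7.SK

open MvPolynomial Matrix Pool.Agent.W428.MOT Pool.Agent.TH192.DT Pool.Agent.TH192.MT
  Pool.Agent.TH192.MU Pool.Agent.TH192.PA Pool.Agent.Helper929 Pool.Agent.J6H7.BD

variable {B : Type} [DecidableEq B]

/-- the variables of the block diagonal skew symmetric matrix with the rows `I`; `c i` is the block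
of the row `i` -/
abbrev Vq {I : Type} [LinearOrder I] (c : I → B) : Type :=
  {q : I × I // q.1 < q.2 ∧ c q.1 = c q.2}

/-- the block diagonal skew symmetric matrix -/
noncomputable def bM {I : Type} [LinearOrder I] (c : I → B) :
    Matrix I I (MvPolynomial (Vq c) ℤ) := Matrix.of fun i j =>
  if h : i < j ∧ c i = c j then X ⟨(i, j), h⟩
  else if h : j < i ∧ c j = c i then - X ⟨(j, i), h⟩ else 0

section

variable {I I' : Type} [LinearOrder I] [LinearOrder I'] (c : I → B)

theorem bM_lt {i j : I} (h : i < j ∧ c i = c j) : bM c i j = X ⟨(i, j), h⟩ := by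
  change (if h : i < j ∧ c i = c j then _ else _) = _
  rw [dif_pos h]

theorem bM_gt {i j : I} (h : j < i ∧ c j = c i) : bM c i j = - X ⟨(j, i), h⟩ := by
  change (if h : i < j ∧ c i = c j then _ else if h : j < i ∧ c j = c i then _ else _) = _
  rw [dif_neg fun h' => lt_asymm h.1 h'.1, dif_pos h]

theorem bM_self (i : I) : bM c i i = 0 := by
  change (if h : i < i ∧ c i = c i then _ else if h : i < i ∧ c i = c i then _ else _) = _
  rw [dif_neg fun h => lt_irrefl i h.1, dif_neg fun h => lt_irrefl i h.1]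

theorem bM_off {i j : I} (h : c i ≠ c j) : bM c i j = 0 := by
  change (if h : i < j ∧ c i = c j then _ else if h : j < i ∧ c j = c i then _ else _) = _
  rw [dif_neg fun h' => h h'.2, dif_neg fun h' => h h'.2.symm]

/-- the matrices with zeros outside of the blocks -/
def Supp {A : Type} [CommRing A] (N : Matrix I I A) : Prop := ∀ i j, c i ≠ c j → N i j = 0

theorem bM_alt {A : Type} [CommRing A] (x : Vq c → A) : Alt ((bM c).map (ev x)) := by
  refine ⟨fun i => ?_, fun i j => ?_⟩
  · change ev x (bM c i i) = 0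
    rw [bM_self, map_zero]
  · change ev x (bM c i j) = - ev x (bM c j i)
    by_cases hc : c i = c j
    · rcases lt_trichotomy i j with h | h | h
      · rw [bM_lt c ⟨h, hc⟩, bM_gt c ⟨h, hc⟩, map_neg, neg_neg]
      · subst h
        rw [bM_self, map_zero, neg_zero]
      · rw [bM_lt c ⟨h, hc.symm⟩, bM_gt c ⟨h, hc.symm⟩, map_neg]
    · rw [bM_off c hc, bM_off c (Ne.symm hc), map_zero, neg_zero]

theorem bM_supp {A : Type} [CommRing A] (x : Vq c → A) : Supp c ((bM c).map (ev x)) := by
  intro i j h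
  rw [Matrix.map_apply, bM_off c h, map_zero]

theorem bM_coord {A : Type} [CommRing A] (N : Matrix I I A) (hN : Alt N) (hS : Supp c N) :
    (bM c).map (ev fun y : Vq c => N y.1.1 y.1.2) = N := by
  ext i j
  change ev _ (bM c i j) = _
  by_cases hc : c i = c j
  · rcases lt_trichotomy i j with h | h | h
    · rw [bM_lt c ⟨h, hc⟩, ev_X]
    · subst h
      rw [bM_self, map_zero, hN.1]
    · rw [bM_gt c ⟨h, hc.symm⟩, map_neg, ev_X, hN.2 i j]
  · rw [bM_off c hc, map_zero, hS i j hc]

theorem supp_schur {A : Type} [CommRing A] (N : Matrix I I A) (hS : Supp c N)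
    (e1 : Fin 2 ⊕ I' ≃ I) (hb : c (e1 (Sum.inl 0)) = c (e1 (Sum.inl 1))) :
    Supp (fun a => c (e1 (Sum.inr a))) (schur N e1 e1) := by
  have hb' : ∀ a : Fin 2, c (e1 (Sum.inl a)) = c (e1 (Sum.inl 0)) := by
    intro a
    fin_cases a
    · rfl
    · exact hb.symm
  intro i j h
  unfold schur
  rw [Matrix.sub_apply, Matrix.mul_apply]
  have h0 : N.submatrix (e1 ∘ Sum.inr) (e1 ∘ Sum.inr) i j = 0 := hS _ _ h
  rw [h0, zero_sub, neg_eq_zero]
  refine Finset.sum_eq_zero fun a _ => ?_
  rw [Matrix.mul_apply, Finset.sum_mul]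
  refine Finset.sum_eq_zero fun b _ => ?_
  by_cases hi : c (e1 (Sum.inr i)) = c (e1 (Sum.inl 0))
  · have h1 : N.submatrix (e1 ∘ Sum.inl) (e1 ∘ Sum.inr) a j = 0 := by
      refine hS _ _ fun h2 => h ?_
      change c (e1 (Sum.inr i)) = c (e1 (Sum.inr j))
      rw [hi, ← hb' a]
      exact h2
    rw [h1, mul_zero]
  · have h1 : N.submatrix (e1 ∘ Sum.inr) (e1 ∘ Sum.inl) i b = 0 := by
      refine hS _ _ fun h2 => hi ?_
      rw [← hb' b]
      exact h2
    rw [h1, zero_mul, zero_mul]

theorem piv_bsk {T : ℕ} [Fintype I] [Fintype I'] (e1 : Fin 2 ⊕ I' ≃ I)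
    (hm : StrictMono fun a : I' => e1 (Sum.inr a))
    (hb : c (e1 (Sum.inl 0)) = c (e1 (Sum.inl 1))) (e : Fin T → ℕ) :
    ∃ p : Piv (kSys (bM c) e) (kSys (bM fun a => c (e1 (Sum.inr a))) fun t => e t - 1),
      ∀ (A : Type) [CommRing A] (x : Vq c → A),
        ev (fun q => x (p.e (Sum.inl q))) p.u = (piv ((bM c).map (ev x)) e1 e1).det := by
  classical
  refine matPiv (kSys (bM c) e) (kSys (bM fun a => c (e1 (Sum.inr a))) fun t => e t - 1)
    (bM c) (bM fun a => c (e1 (Sum.inr a)))
    (fun y => y.1) e1 e1 (fun y => ⟨(e1 (Sum.inr y.1.1), e1 (Sum.inr y.1.2)), hm y.2.1, y.2.2⟩)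
    ?_ ?_ ?_ ?_ ?_
  · rintro ⟨⟨a, b⟩, hab⟩ ⟨⟨a', b'⟩, hab'⟩ h
    have h0 := congrArg Subtype.val h
    have h1 := (Prod.mk.inj h0).1
    have h2 := (Prod.mk.inj h0).2
    have h3 := Sum.inr_injective (e1.injective h1)
    have h4 := Sum.inr_injective (e1.injective h2)
    exact Subtype.ext (Prod.ext h3 h4)
  · intro y
    exact bM_lt c ⟨hm y.2.1, y.2.2⟩
  · intro A _ x x' hxx' a b hab
    have key : ∀ (a b : Fin 2 ⊕ I') (h : e1 a < e1 b ∧ c (e1 a) = c (e1 b)),
        (∀ a' b', a = Sum.inr a' → b = Sum.inr b' → False) →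
        x ⟨(e1 a, e1 b), h⟩ = x' ⟨(e1 a, e1 b), h⟩ := by
      intro a b h hab
      apply hxx'
      rintro ⟨y, hy⟩
      have h0 := congrArg Subtype.val hy
      have h1 := (Prod.mk.inj h0).1
      have h2 := (Prod.mk.inj h0).2
      exact hab _ _ (e1.injective h1).symm (e1.injective h2).symm
    by_cases hc : c (e1 a) = c (e1 b)
    · rcases lt_trichotomy (e1 a) (e1 b) with h | h | h
      · rw [bM_lt c ⟨h, hc⟩, ev_X, ev_X]
        exact key a b ⟨h, hc⟩ hab
      · rw [h, bM_self, map_zero, map_zero]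
      · rw [bM_gt c ⟨h, hc.symm⟩, map_neg, map_neg, ev_X, ev_X]
        congr 1
        exact key b a ⟨h, hc.symm⟩ fun b' a' hb ha => hab a' b' ha hb
    · rw [bM_off c hc, map_zero, map_zero]
  · intro A _ x hx
    exact bM_coord _ _ (schur_alt _ (bM_alt c x) e1 hx) (supp_schur c _ (bM_supp c x) e1 hb)
  · intro A _ x x' h h' t
    rw [fI_kSys, fI_kSys, h']
    rcases Nat.eq_zero_or_pos (e t) with ht | ht
    · rw [ht, pfI_zero, pfI_zero]
    · obtain ⟨k, hk⟩ : ∃ k, e t = k + 1 := ⟨e t - 1, by omega⟩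
      rw [hk, Nat.add_sub_cancel]
      exact pfI_schur _ (bM_alt c x) e1 h k

theorem hom_bM {q : ℕ} (r : Fin (2 * q) → I) :
    (pf (2 * q) ((bM c).submatrix r r)).IsHomogeneous q := by
  refine hom_pf _ _ fun i j => ?_
  rw [Matrix.submatrix_apply]
  by_cases hc : c (r i) = c (r j)
  · rcases lt_trichotomy (r i) (r j) with h | h | h
    · rw [bM_lt c ⟨h, hc⟩]
      exact isHomogeneous_X _ _
    · rw [h, bM_self]
      exact isHomogeneous_zero _ _ _
    · rw [bM_gt c ⟨h, hc.symm⟩]
      exact (isHomogeneous_X _ _).neg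
  · rw [bM_off c hc]
    exact isHomogeneous_zero _ _ _

/-- the number of the rows in a block -/
noncomputable def rN (b : B) : ℕ := Nat.card {i : I // c i = b}

theorem rN_eq2 [Finite I] (i j : I) (hij : i ≠ j) (hb : c i = c j) (b : B) :
    rN c b = (if c i = b then 2 else 0) +
      rN (fun a : {x : I // x ≠ i ∧ x ≠ j} => c a.1) b := by
  have h1 : rN c b = Nat.card ({a : Fin 2 // c (eq2 i j hij (Sum.inl a)) = b} ⊕
      {x : {x : I // x ≠ i ∧ x ≠ j} // c (eq2 i j hij (Sum.inr x)) = b}) := by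
    unfold rN
    refine Nat.card_congr ?_
    refine (((eq2 i j hij).subtypeEquiv fun x => ?_).symm).trans
      (Equiv.subtypeSum (p := fun x => c (eq2 i j hij x) = b))
    exact Iff.rfl
  rw [h1, Nat.card_sum]
  congr 1
  have h2 : ∀ a : Fin 2, c (eq2 i j hij (Sum.inl a)) = c i := by
    intro a
    fin_cases a
    · rfl
    · exact hb.symm
  simp only [h2]
  split_ifs with h
  · have : Nat.card {a : Fin 2 // c i = b} = Nat.card (Fin 2) :=
      Nat.card_congr (Equiv.subtypeUnivEquiv fun _ => h)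
    rw [this, Nat.card_eq_fintype_card, Fintype.card_fin]
  · have : IsEmpty {a : Fin 2 // c i = b} := ⟨fun x => h x.2⟩
    exact Nat.card_of_isEmpty

/-- the number of the variables -/
theorem card_Vq [Fintype B] [Finite I] :
    Nat.card (Vq c) = ∑ b, rN c b * (rN c b - 1) / 2 := by
  classical
  have hf : Fintype I := Fintype.ofFinite I
  rw [Nat.card_congr (Equiv.sigmaFiberEquiv (fun v : Vq c => c v.1.1)).symm, Nat.card_sigma]
  refine Finset.sum_congr rfl fun b _ => ?_
  have h1 : Nat.card {v : Vq c // c v.1.1 = b} =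
      Nat.card {q : {i : I // c i = b} × {i : I // c i = b} // q.1 < q.2} := by
    refine Nat.card_congr
      { toFun := fun v => ⟨(⟨v.1.1.1, v.2⟩, ⟨v.1.1.2, v.1.2.2.symm.trans v.2⟩), v.1.2.1⟩
        invFun := fun q => ⟨⟨(q.1.1.1, q.1.2.1), q.2, q.1.1.2.trans q.1.2.2.symm⟩, q.1.1.2⟩
        left_inv := fun v => rfl
        right_inv := fun q => rfl }
  rw [h1, Nat.card_eq_fintype_card, card_skew, rN, Nat.card_eq_fintype_card]

end

/-- the pairs -/
def DK [Fintype B] {T : ℕ} (n : B → ℕ) (p : Fin T → ℕ) : Set (ℕ × (Fin T → ℕ)) :=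
  {q | ∃ d : B → ℕ, (∀ b, 2 * d b ≤ n b) ∧ (∃ t, 0 < p t - ∑ b, d b) ∧
    q = (∑ b, (n b - 2 * d b) * (n b - 2 * d b - 1) / 2, fun t => p t - ∑ b, d b)}

theorem sum_upd1 [Fintype B] (d : B → ℕ) (b0 : B) :
    ∑ b, Function.update d b0 (d b0 + 1) b = (∑ b, d b) + 1 := by
  rw [← Finset.add_sum_erase _ _ (Finset.mem_univ b0), Function.update_self,
    ← Finset.add_sum_erase _ d (Finset.mem_univ b0)]
  have h : ∑ b ∈ Finset.univ.erase b0, Function.update d b0 (d b0 + 1) b =
      ∑ b ∈ Finset.univ.erase b0, d b := by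
    refine Finset.sum_congr rfl fun b hb => ?_
    rw [Function.update_of_ne (Finset.ne_of_mem_erase hb)]
  rw [h]
  ring

/-- **Rationality, for the states.** -/
theorem sk_rat (K : Type) [Field K] {T : ℕ} [Fintype B] (n : B → ℕ) (p : Fin T → ℕ) :
    ∀ (l : ℕ) (I : Type) [Fintype I] [LinearOrder I] (c : I → B) (d : B → ℕ),
      Fintype.card I = l → (∀ b, 2 * d b ≤ n b) → (∀ b, rN c b = n b - 2 * d b) →
      RatS K (DK n p) (kSys (bM c) fun t => p t - ∑ b, d b) := by
  classical
  intro l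
  induction l using Nat.strong_induction_on with
  | _ l ih =>
    intro I _ _ c d hl hd hr
    have hP : ∀ q : Vq c, ∃ P : Piv (kSys (bM c) fun t => p t - ∑ b, d b)
        (kSys (bM fun a : {x : I // x ≠ q.1.1 ∧ x ≠ q.1.2} => c a.1)
          fun t => p t - ∑ b, d b - 1),
        ∀ (A : Type) [CommRing A] (x : Vq c → A), ev (fun z => x (P.e (Sum.inl z))) P.u =
          (piv ((bM c).map (ev x)) (eq2 q.1.1 q.1.2 q.2.1.ne) (eq2 q.1.1 q.1.2 q.2.1.ne)).det :=
      fun q => piv_bsk (I := I) (I' := {x : I // x ≠ q.1.1 ∧ x ≠ q.1.2}) c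
        (eq2 q.1.1 q.1.2 q.2.1.ne) (fun x y h => h) q.2.2 (fun t => p t - ∑ b, d b)
    choose P hP using hP
    refine ratS_step (fun t => p t - ∑ b, d b) ?_ (B := Vq c)
      (fun q => kSys (bM fun a : {x : I // x ≠ q.1.1 ∧ x ≠ q.1.2} => c a.1)
        fun t => p t - ∑ b, d b - 1) P ?_ ?_ ?_
    · rintro ⟨t, r⟩
      exact hom_bM c r
    · rintro ⟨⟨i, j⟩, hij, hb⟩
      change i < j at hij
      change c i = c j at hb
      have hc := card_eq2 i j hij.ne
      have h2I := Fintype.card_congr (eq2 i j hij.ne)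
      rw [Fintype.card_sum, Fintype.card_fin] at h2I
      have key : ∀ b, 2 * Function.update d (c i) (d (c i) + 1) b ≤ n b ∧
          rN (fun a : {x : I // x ≠ i ∧ x ≠ j} => c a.1) b =
            n b - 2 * Function.update d (c i) (d (c i) + 1) b := by
        intro b
        have h1 := hd b
        have h2 := hr b
        have h3 := rN_eq2 c i j hij.ne hb b
        by_cases h : c i = b
        · subst h
          rw [if_pos rfl] at h3
          rw [Function.update_self]
          omega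
        · rw [if_neg h] at h3
          rw [Function.update_of_ne (Ne.symm h)]
          omega
      have h6 := ih (Fintype.card {x : I // x ≠ i ∧ x ≠ j}) (by rw [hc]; omega)
        {x : I // x ≠ i ∧ x ≠ j} (fun a => c a.1) (Function.update d (c i) (d (c i) + 1)) rfl
        (fun b => (key b).1) (fun b => (key b).2)
      have h7 : (fun t => p t - ∑ b, Function.update d (c i) (d (c i) + 1) b) =
          fun t => p t - ∑ b, d b - 1 := by
        funext t
        rw [sum_upd1]
        omega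
      rw [h7] at h6
      exact h6
    · intro x hx
      obtain ⟨⟨⟨i, j⟩, hij⟩, h⟩ := Function.ne_iff.1 hx
      refine ⟨⟨(i, j), hij⟩, ?_⟩
      rw [hP ⟨(i, j), hij⟩ _ x, Matrix.det_fin_two]
      change ev x (bM c i i) * ev x (bM c j j) - ev x (bM c i j) * ev x (bM c j i) ≠ 0
      change i < j ∧ c i = c j at hij
      rw [bM_self, bM_lt c hij, bM_gt c hij, map_zero, map_neg, ev_X]
      have h' : x ⟨(i, j), hij⟩ ≠ 0 := h
      rw [zero_mul, zero_sub, mul_neg, neg_neg]
      exact mul_ne_zero h' h'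
    · intro hN
      refine ⟨d, hd, hN, ?_⟩
      have h1 := card_Vq c
      rw [Nat.card_eq_fintype_card] at h1
      simp only [hr] at h1
      exact Prod.ext h1 rfl

end Pool.Agent.J6H7.SK
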