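import Pool.Agent.J6H7.SK.Roots
import Pool.Agent.J6H7.SK.Rec

set_option autoImplicit false
set_option linter.unusedSectionVars false
set_option linter.unusedVariables false

/-! # The divisors of block diagonal skew symmetric matrices -/

namespace Pool.Agent.J6H7.SK

open MvPowerSeries Pool.Agent.W574.SM Pool.Agent.TH192.DT Pool.Agent.TH192.MT
  Pool.Agent.Helper929

section Support

variable {k : ℕ} {R' : Type} [CommRing R'] {A : Type} [Fintype A] [DecidableEq A] (γ : A → Fin k)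

/-- the inverse of a block diagonal matrix -/
theorem inv_supp (M : Matrix A A R') (hM : IsUnit M.det) (h : ∀ x y, γ x ≠ γ y → M x y = 0)
    (x y : A) (hxy : γ x ≠ γ y) : M⁻¹ x y = 0 := by
  set E : Matrix A A R' := Matrix.diagonal fun z => if γ z = γ x then 1 else 0 with hE
  have h1 : E * M = M * E := by
    ext u v
    rw [hE, Matrix.diagonal_mul, Matrix.mul_diagonal]
    by_cases huv : γ u = γ v
    · rw [huv, mul_comm]
    · rw [h u v huv, mul_zero, zero_mul]
  have h2 : E * M⁻¹ = M⁻¹ * E := by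
    calc E * M⁻¹ = M⁻¹ * (M * E) * M⁻¹ := by
          rw [← Matrix.mul_assoc M⁻¹ M E, Matrix.nonsing_inv_mul _ hM, Matrix.one_mul]
      _ = M⁻¹ * (E * M) * M⁻¹ := by rw [h1]
      _ = M⁻¹ * E := by
          rw [Matrix.mul_assoc, Matrix.mul_assoc, Matrix.mul_nonsing_inv _ hM, Matrix.mul_one]
  have h3 := congrFun (congrFun h2 x) y
  rw [hE, Matrix.diagonal_mul, Matrix.mul_diagonal, if_pos rfl, one_mul,
    if_neg (Ne.symm hxy), mul_zero] at h3
  exact h3

theorem mul_supp {A' A'' : Type} (γ' : A' → Fin k) (γ'' : A'' → Fin k)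
    (M : Matrix A' A R') (M' : Matrix A A'' R')
    (h : ∀ x y, γ' x ≠ γ y → M x y = 0) (h' : ∀ x y, γ x ≠ γ'' y → M' x y = 0)
    (x : A') (y : A'') (hxy : γ' x ≠ γ'' y) : (M * M') x y = 0 := by
  rw [Matrix.mul_apply]
  refine Finset.sum_eq_zero fun z _ => ?_
  by_cases hz : γ' x = γ z
  · rw [h' z y (by rw [← hz]; exact hxy), mul_zero]
  · rw [h x z hz, zero_mul]

end Support

section Instance

variable {N k D N' : ℕ} {R : Type} [Fintype R] [DecidableEq R] (c : Fin N → Fin k)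
  (e : (Fin D × Bool) ⊕ Tp N' R ≃ Fin N)
  (hA : ∀ a, c (e (Sum.inl a)) = c (e (Sum.inl (fl a))))
  (hT : ∀ a, c (e (Sum.inr (Sum.inl a))) = c (e (Sum.inr (Sum.inl (fl a)))))

/-- the index of an entry -/
def bix (t0 : Vq c) (i j : Fin N) : Vq c :=
  if h : i < j ∧ c i = c j then ⟨(i, j), h⟩ else
    if h : j < i ∧ c j = c i then ⟨(j, i), h⟩ else t0

/-- the sign of an entry -/
noncomputable def bsg (i j : Fin N) : ℂ := if c i = c j then ssg i j else 0

theorem bix_lt {t0 : Vq c} {i j : Fin N} (h : i < j ∧ c i = c j) :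
    bix c t0 i j = ⟨(i, j), h⟩ := dif_pos h

theorem bix_gt {t0 : Vq c} {i j : Fin N} (h : j < i ∧ c j = c i) :
    bix c t0 i j = ⟨(j, i), h⟩ := by
  rw [bix, dif_neg fun h' => lt_asymm h.1 h'.1, dif_pos h]

theorem bix_symm (t0 : Vq c) (i j : Fin N) : bix c t0 i j = bix c t0 j i := by
  by_cases hc : c i = c j
  · rcases lt_trichotomy i j with h | h | h
    · rw [bix_lt c ⟨h, hc⟩, bix_gt c ⟨h, hc⟩]
    · rw [h]
    · rw [bix_lt c ⟨h, hc.symm⟩, bix_gt c ⟨h, hc.symm⟩]
  · rw [bix, bix, dif_neg fun h => hc h.2, dif_neg fun h => hc h.2.symm,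
      dif_neg fun h => hc h.2.symm, dif_neg fun h => hc h.2]

theorem bsg_on {i j : Fin N} (h : c i = c j) : bsg c i j = ssg i j := if_pos h

theorem bsg_off {i j : Fin N} (h : c i ≠ c j) : bsg c i j = 0 := if_neg h

theorem bsg_ne {i j : Fin N} (h : bsg c i j ≠ 0) : c i = c j ∧ i ≠ j := by
  have h1 : c i = c j := by
    by_contra h1
    exact h (bsg_off c h1)
  refine ⟨h1, ?_⟩
  rintro rfl
  rw [bsg_on c rfl, ssg_self] at h
  exact h rfl

theorem bsg_ne' {i j : Fin N} (h : c i = c j) (h' : i ≠ j) : bsg c i j ≠ 0 := by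
  rw [bsg_on c h]
  rcases lt_or_gt_of_ne h' with h1 | h1
  · rw [ssg_lt h1]
    exact one_ne_zero
  · rw [ssg_gt h1]
    exact neg_ne_zero.2 one_ne_zero

/-- the data of the block diagonal skew symmetric matrix -/
noncomputable def gS (t0 : Vq c) : Sb D N' R (Vq c) where
  ix := fun x y => bix c t0 (e x) (e y)
  sg := fun x y => bsg c (e x) (e y)
  sg_sq := fun x y h => by
    obtain ⟨h1, h2⟩ := bsg_ne c h
    rw [bsg_on c h1]
    rcases lt_or_gt_of_ne h2 with h3 | h3
    · rw [ssg_lt h3, mul_one]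
    · rw [ssg_gt h3]; norm_num
  sg_anti := fun x y => by
    by_cases hc : c (e x) = c (e y)
    · rw [bsg_on c hc, bsg_on c hc.symm]
      rcases lt_trichotomy (e x) (e y) with h | h | h
      · rw [ssg_lt h, ssg_gt h]
      · rw [h, ssg_self, neg_zero]
      · rw [ssg_lt h, ssg_gt h, neg_neg]
    · rw [bsg_off c hc, bsg_off c (Ne.symm hc), neg_zero]
  ix_symm := fun x y => bix_symm c t0 _ _
  ix_inj := fun x y x' y' h h' hh => by
    obtain ⟨hc, hne⟩ := bsg_ne c h
    obtain ⟨hc', hne'⟩ := bsg_ne c h'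
    rcases lt_or_gt_of_ne hne with h1 | h1 <;> rcases lt_or_gt_of_ne hne' with h2 | h2
    · rw [bix_lt c ⟨h1, hc⟩, bix_lt c ⟨h2, hc'⟩, Subtype.mk.injEq, Prod.mk.injEq,
        e.injective.eq_iff, e.injective.eq_iff] at hh
      exact Or.inl hh
    · rw [bix_lt c ⟨h1, hc⟩, bix_gt c ⟨h2, hc'.symm⟩, Subtype.mk.injEq, Prod.mk.injEq,
        e.injective.eq_iff, e.injective.eq_iff] at hh
      exact Or.inr hh
    · rw [bix_gt c ⟨h1, hc.symm⟩, bix_lt c ⟨h2, hc'⟩, Subtype.mk.injEq, Prod.mk.injEq,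
        e.injective.eq_iff, e.injective.eq_iff] at hh
      exact Or.inr ⟨hh.2, hh.1⟩
    · rw [bix_gt c ⟨h1, hc.symm⟩, bix_gt c ⟨h2, hc'.symm⟩, Subtype.mk.injEq, Prod.mk.injEq,
        e.injective.eq_iff, e.injective.eq_iff] at hh
      exact Or.inl ⟨hh.2, hh.1⟩
  surj := fun t => by
    refine ⟨e.symm t.1.1, e.symm t.1.2, ?_, ?_⟩
    · rw [Equiv.apply_symm_apply, Equiv.apply_symm_apply]
      exact bsg_ne' c t.2.2 t.2.1.ne
    · rw [Equiv.apply_symm_apply, Equiv.apply_symm_apply, bix_lt c t.2]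
  parA := fun a => bsg_ne' c (hA a) fun h => fl_ne a (Sum.inl_injective (e.injective h)).symm
  parT := fun a => bsg_ne' c (hT a) fun h => fl_ne a
    (Sum.inl_injective (Sum.inr_injective (e.injective h))).symm

/-- the matrix over `ℂ` -/
noncomputable def bMC : Matrix (Fin N) (Fin N) (MvPolynomial (Vq c) ℂ) :=
  (bM c).map (MvPolynomial.map (Int.castRingHom ℂ))

theorem bMC_alt (i j : Fin N) : bMC c i j = - bMC c j i := by
  rw [bMC, Matrix.map_apply, Matrix.map_apply, ← map_neg]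
  congr 1
  by_cases hc : c i = c j
  · rcases lt_trichotomy i j with h | h | h
    · rw [bM_lt c ⟨h, hc⟩, bM_gt c ⟨h, hc⟩, neg_neg]
    · subst h
      rw [bM_self, neg_zero]
    · rw [bM_lt c ⟨h, hc.symm⟩, bM_gt c ⟨h, hc.symm⟩]
  · rw [bM_off c hc, bM_off c (Ne.symm hc), neg_zero]

theorem gS_P (t0 : Vq c) (x y : (Fin D × Bool) ⊕ Tp N' R) :
    (gS c e hA hT t0).P x y = bMC c (e x) (e y) := by
  change MvPolynomial.C (bsg c (e x) (e y)) * MvPolynomial.X (bix c t0 (e x) (e y)) = _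
  rw [bMC, Matrix.map_apply]
  by_cases hc : c (e x) = c (e y)
  · rw [bsg_on c hc]
    rcases lt_trichotomy (e x) (e y) with h | h | h
    · rw [ssg_lt h, bix_lt c ⟨h, hc⟩, bM_lt c ⟨h, hc⟩, map_one, one_mul, MvPolynomial.map_X]
    · rw [h, ssg_self, bM_self, map_zero, map_zero, zero_mul]
    · rw [ssg_gt h, bix_gt c ⟨h, hc.symm⟩, bM_gt c ⟨h, hc.symm⟩, map_neg, map_one, neg_one_mul,
        map_neg, MvPolynomial.map_X]
  · rw [bsg_off c hc, bM_off c hc, map_zero, map_zero, zero_mul]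

/-- the Pfaffians -/
noncomputable def pfC (p : ℕ) (r : Fin (2 * p) ↪o Fin N) : MvPolynomial (Vq c) ℂ :=
  MvPolynomial.map (Int.castRingHom ℂ) (pf (2 * p) ((bM c).submatrix r r))

theorem pfC_eq (p : ℕ) (r : Fin (2 * p) ↪o Fin N) :
    pfC c p r = pf (2 * p) ((bMC c).submatrix r r) :=
  pf_map (MvPolynomial.map (Int.castRingHom ℂ)) (2 * p) ((bM c).submatrix r r)

theorem pfC_sq (p : ℕ) (r : Fin (2 * p) ↪o Fin N) :
    pfC c p r ^ 2 = ((bMC c).submatrix r r).det := by
  rw [pfC_eq]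
  exact pf_sq_poly _ fun i j => bMC_alt c _ _

theorem isPf (t0 : Vq c) (p : ℕ) : (gS c e hA hT t0).IsPf p (pfC c p) := by
  refine ⟨fun S => ⟨fun i => e.symm (S i), ?_⟩, fun s hs => ?_⟩
  · rw [pfC_sq]
    congr 1
    ext1 i j
    rw [Matrix.submatrix_apply, Matrix.submatrix_apply, gS_P, Equiv.apply_symm_apply,
      Equiv.apply_symm_apply]
  · obtain ⟨S, π, hS⟩ := exists_sort (fun i => e (s i)) (e.injective.comp hs)
    refine ⟨S, ?_⟩
    rw [pfC_sq]
    have h1 : (gS c e hA hT t0).P.submatrix s s = ((bMC c).submatrix S S).submatrix π π := by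
      ext1 i j
      rw [Matrix.submatrix_apply, Matrix.submatrix_apply, Matrix.submatrix_apply, gS_P, hS, hS]
    rw [h1, Matrix.det_submatrix_equiv_self]

theorem v_off (t0 : Vq c) (lam : ℂ) (hlam : lam ≠ 0) (x y : (Fin D × Bool) ⊕ Tp N' R)
    (h : c (e x) ≠ c (e y)) : ((gS c e hA hT t0).D lam hlam).v x y = 0 := by
  change MvPowerSeries.C (bsg c (e x) (e y)) * _ = 0
  rw [bsg_off c h, map_zero, zero_mul]

theorem mA_off (t0 : Vq c) (lam : ℂ) (hlam : lam ≠ 0) (a b : Fin D × Bool)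
    (h : c (e (Sum.inl a)) ≠ c (e (Sum.inl b))) : ((gS c e hA hT t0).D lam hlam).mA a b = 0 := by
  rw [Mt.mA, Matrix.add_apply, Matrix.of_apply, v_off c e hA hT t0 lam hlam _ _ h, add_zero,
    Matrix.map_apply]
  change MvPowerSeries.C (lam • jm _ a b) = 0
  rw [jm, Matrix.of_apply, if_neg, smul_zero, map_zero]
  rintro rfl
  exact h (hA a)

theorem mY_off (t0 : Vq c) (lam : ℂ) (hlam : lam ≠ 0) (a b : Tp N' R)
    (h : c (e (Sum.inr a)) ≠ c (e (Sum.inr b))) : ((gS c e hA hT t0).D lam hlam).mY a b = 0 := by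
  rw [Mt.mY, Matrix.of_apply, v_off c e hA hT t0 lam hlam _ _ h, ite_self, add_zero]
  change MvPowerSeries.C ((gS c e hA hT t0).Y1 a b) = 0
  have h1 : (gS c e hA hT t0).Y1 a b = 0 := by
    rcases a with a | a <;> rcases b with b | b
    · rw [Sb.Y1, Matrix.fromBlocks_apply₁₁, jm, Matrix.of_apply, if_neg]
      rintro rfl
      exact h (hT a)
    · rfl
    · rfl
    · rfl
  rw [h1, map_zero]

theorem mX_off (t0 : Vq c) (lam : ℂ) (hlam : lam ≠ 0) (x y : (Fin D × Bool) ⊕ Tp N' R)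
    (h : c (e x) ≠ c (e y)) : ((gS c e hA hT t0).D lam hlam).mX x y = 0 := by
  rcases x with x | x <;> rcases y with y | y
  · exact mA_off c e hA hT t0 lam hlam x y h
  · exact v_off c e hA hT t0 lam hlam _ _ h
  · exact v_off c e hA hT t0 lam hlam _ _ h
  · rw [Mt.mX, Matrix.fromBlocks_apply₂₂, Matrix.add_apply, Matrix.smul_apply,
      mY_off c e hA hT t0 lam hlam x y h, smul_zero, add_zero]
    refine mul_supp (fun a => c (e (Sum.inl a))) (fun r => c (e (Sum.inr r)))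
      (fun r => c (e (Sum.inr r))) _ _ (fun r a hra => ?_)
      (fun a r har => v_off c e hA hT t0 lam hlam (Sum.inl a) (Sum.inr r) har) x y h
    refine mul_supp (fun a => c (e (Sum.inl a))) (fun r => c (e (Sum.inr r)))
      (fun a => c (e (Sum.inl a))) _ _
      (fun r a har => v_off c e hA hT t0 lam hlam (Sum.inr r) (Sum.inl a) har)
      (fun a b hab => ?_) r a hra
    exact inv_supp (fun a => c (e (Sum.inl a))) _ ((gS c e hA hT t0).D lam hlam).mA_unit
      (fun a b hab => mA_off c e hA hT t0 lam hlam a b hab) a b hab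

theorem gS_chart (t0 : Vq c) (lam : ℂ) (hlam : lam ≠ 0) :
    ∃ ξ, ((gS c e hA hT t0).D lam hlam).IsChart ξ := by
  refine ⟨fun t => ((gS c e hA hT t0).D lam hlam).mX (e.symm t.1.1) (e.symm t.1.2),
    fun x y => ?_⟩
  have hsk : ∀ x y, ((gS c e hA hT t0).D lam hlam).mX y x
      = - ((gS c e hA hT t0).D lam hlam).mX x y := fun x y =>
    congrFun (congrFun ((gS c e hA hT t0).skew lam hlam) x) y
  change _ = MvPowerSeries.C (bsg c (e x) (e y)) *
    ((gS c e hA hT t0).D lam hlam).mX (e.symm (bix c t0 (e x) (e y)).1.1)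
      (e.symm (bix c t0 (e x) (e y)).1.2)
  by_cases hc : c (e x) = c (e y)
  · rw [bsg_on c hc]
    rcases lt_trichotomy (e x) (e y) with h | h | h
    · rw [ssg_lt h, bix_lt c ⟨h, hc⟩, map_one, one_mul, Equiv.symm_apply_apply,
        Equiv.symm_apply_apply]
    · rw [h, ssg_self, map_zero, zero_mul]
      have hxy : x = y := e.injective h
      subst hxy
      have h1 := hsk x x
      have h2 : (MvPowerSeries.C (2 : ℂ) : MvPowerSeries (Vq c) ℂ) *
          ((gS c e hA hT t0).D lam hlam).mX x x = 0 := by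
        rw [show (2 : ℂ) = 1 + 1 by norm_num, map_add, map_one]
        linear_combination h1
      have h3 := congrArg (fun f => MvPowerSeries.C (2⁻¹ : ℂ) * f) h2
      simp only [← mul_assoc, ← map_mul, mul_zero] at h3
      rwa [inv_mul_cancel₀ (two_ne_zero), map_one, one_mul] at h3
    · rw [ssg_gt h, bix_gt c ⟨h, hc.symm⟩, map_neg, map_one, neg_one_mul,
        Equiv.symm_apply_apply, Equiv.symm_apply_apply, hsk y x]
  · rw [bsg_off c hc, map_zero, zero_mul, mX_off c e hA hT t0 lam hlam x y hc]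

/-- the number of the exceptional coordinates -/
theorem card_gS (t0 : Vq c) :
    Nat.card {t // ∃ r r', (gS c e hA hT t0).sg (Sum.inr r) (Sum.inr r') ≠ 0 ∧
      t = (gS c e hA hT t0).ix (Sum.inr r) (Sum.inr r')} =
    ∑ b, rN (fun r : Tp N' R => c (e (Sum.inr r))) b *
      (rN (fun r : Tp N' R => c (e (Sum.inr r))) b - 1) / 2 := by
  classical
  let _ : LinearOrder (Tp N' R) := LinearOrder.lift' (fun r => e (Sum.inr r))
    (e.injective.comp Sum.inr_injective)
  rw [← card_Vq (fun r : Tp N' R => c (e (Sum.inr r)))]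
  symm
  refine Nat.card_eq_of_bijective (fun q => ⟨⟨(e (Sum.inr q.1.1), e (Sum.inr q.1.2)),
    q.2.1, q.2.2⟩, q.1.1, q.1.2, ?_, ?_⟩) ⟨?_, ?_⟩
  · refine bsg_ne' c q.2.2 (ne_of_lt ?_)
    exact q.2.1
  · exact (bix_lt c ⟨q.2.1, q.2.2⟩).symm
  · intro q q' h
    have h0 := congrArg (fun v => v.1.1) h
    have h1 := (Prod.mk.inj h0).1
    have h2 := (Prod.mk.inj h0).2
    exact Subtype.ext (Prod.ext (Sum.inr_injective (e.injective h1))
      (Sum.inr_injective (e.injective h2)))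
  · rintro ⟨t, r, r', hsg, rfl⟩
    obtain ⟨hc, hne⟩ := bsg_ne c hsg
    rcases lt_or_gt_of_ne hne with h | h
    · exact ⟨⟨(r, r'), h, hc⟩, Subtype.ext (bix_lt c ⟨h, hc⟩).symm⟩
    · exact ⟨⟨(r', r), h, hc.symm⟩, Subtype.ext (bix_gt c ⟨h, hc.symm⟩).symm⟩

end Instance

end Pool.Agent.J6H7.SK
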