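import Pool.Agent.J6H7.SK.Inst
import Pool.Agent.J6H7.SK.Defs

set_option autoImplicit false
set_option linter.unusedSectionVars false
set_option linter.unusedVariables false

/-! # Block diagonal skew symmetric matrices: the roots and the zeta functions -/

namespace Pool.Agent.J6H7.SK

open MvPolynomial Pool.Agent.W574.SM Pool.Agent.W574.LM Pool.Agent.H628R4.TP
  Pool.Agent.W574.HS Pool.Agent.TH192.DT Pool.Agent.TH192.MT Pool.Agent.R852.MX
  Pool.Agent.W428.MOT Pool.Agent.TH192.MU Pool.Agent.TH192.PA Pool.Agent.Helper929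
  Pool.Agent.J6H7.BD

variable {N k : ℕ} (c : Fin N → Fin k)

theorem skewZ_eq : skewZ c = bM c := rfl

theorem rN_top (b : Fin k) : rN c b = bsz c b := by
  rw [rN, Nat.card_eq_fintype_card, Fintype.card_subtype]
  rfl

/-! ### the rows of the blocks -/

section Data

variable (d : Fin k → ℕ) (hd : ∀ b, d b ≤ bsz c b / 2) {N' : ℕ}
  (hN : (∑ b, d b) + (N' + 2) = rkC c)

/-- the rest of the block -/
abbrev Rr : Type := Σ b, Fin (bsz c b % 2)

/-- the rows of a block -/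
abbrev Sp (b : Fin k) : Type :=
  (Fin (d b) × Bool) ⊕ ((Fin (bsz c b / 2 - d b) × Bool) ⊕ Fin (bsz c b % 2))

include hd in
theorem card_Sp (b : Fin k) : Fintype.card (Sp c d b) = Fintype.card {i // c i = b} := by
  have h1 := hd b
  have h2 : Fintype.card {i // c i = b} = bsz c b := by
    rw [Fintype.card_subtype]
    rfl
  rw [h2]
  simp only [Sp, Fintype.card_sum, Fintype.card_prod, Fintype.card_fin, Fintype.card_bool]
  omega

/-- the rows of the blocks -/
noncomputable def eSp : (Σ b, Sp c d b) ≃ Fin N :=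
  (Equiv.sigmaCongrRight fun b => Fintype.equivOfCardEq (card_Sp c d hd b)).trans
    (Equiv.sigmaFiberEquiv c)

theorem c_eSp (z : Σ b, Sp c d b) : c (eSp c d hd z) = z.1 :=
  (Fintype.equivOfCardEq (card_Sp c d hd z.1) z.2).2

/-- the pairs in `A` -/
noncomputable def eA : Fin (∑ b, d b) ≃ Σ b, Fin (d b) := finSigmaFinEquiv.symm

include hd hN in
theorem card_T : Fintype.card (Fin (N' + 2)) = Fintype.card (Σ b, Fin (bsz c b / 2 - d b)) := by
  rw [Fintype.card_sigma]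
  simp only [Fintype.card_fin]
  have h1 : ∑ b, (bsz c b / 2 - d b) + ∑ b, d b = rkC c := by
    rw [← Finset.sum_add_distrib, rkC]
    exact Finset.sum_congr rfl fun b _ => Nat.sub_add_cancel (hd b)
  omega

/-- the pairs in the exceptional block -/
noncomputable def eT : Fin (N' + 2) ≃ Σ b, Fin (bsz c b / 2 - d b) :=
  Fintype.equivOfCardEq (card_T c d hd hN)

/-- the rows -/
noncomputable def fS : (Fin (∑ b, d b) × Bool) ⊕ Tp N' (Rr c) → Σ b, Sp c d b
  | Sum.inl a => ⟨(eA d a.1).1, Sum.inl ((eA d a.1).2, a.2)⟩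
  | Sum.inr (Sum.inl a) => ⟨(eT c d hd hN a.1).1, Sum.inr (Sum.inl ((eT c d hd hN a.1).2, a.2))⟩
  | Sum.inr (Sum.inr r) => ⟨r.1, Sum.inr (Sum.inr r.2)⟩

theorem fS_bij : Function.Bijective (fS c d hd hN) := by
  constructor
  · rintro (⟨a, x⟩ | (⟨a, x⟩ | a)) (⟨a', x'⟩ | (⟨a', x'⟩ | a')) h
    · change (⟨(eA d a).1, Sum.inl ((eA d a).2, x)⟩ : Σ b, Sp c d b) =
        ⟨(eA d a').1, Sum.inl ((eA d a').2, x')⟩ at h
      have h1 : eA d a = eA d a' ∧ x = x' := by
        generalize eA d a = u at h ⊢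
        generalize eA d a' = u' at h ⊢
        obtain ⟨b, i⟩ := u
        obtain ⟨b', i'⟩ := u'
        rw [Sigma.mk.injEq] at h
        obtain ⟨h1, h2⟩ := h
        have h1' : b = b' := h1
        subst h1'
        have h3 := Sum.inl_injective (eq_of_heq h2)
        exact ⟨congrArg (Sigma.mk b) (Prod.mk.inj h3).1, (Prod.mk.inj h3).2⟩
      rw [(eA d).injective h1.1, h1.2]
    · exfalso
      change (⟨(eA d a).1, Sum.inl ((eA d a).2, x)⟩ : Σ b, Sp c d b) =
        ⟨(eT c d hd hN a').1, Sum.inr (Sum.inl ((eT c d hd hN a').2, x'))⟩ at h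
      generalize eA d a = u at h
      generalize eT c d hd hN a' = u' at h
      obtain ⟨b, i⟩ := u
      obtain ⟨b', i'⟩ := u'
      rw [Sigma.mk.injEq] at h
      obtain ⟨h1, h2⟩ := h
      have h1' : b = b' := h1
      subst h1'
      exact absurd (eq_of_heq h2) Sum.inl_ne_inr
    · exfalso
      change (⟨(eA d a).1, Sum.inl ((eA d a).2, x)⟩ : Σ b, Sp c d b) =
        ⟨a'.1, Sum.inr (Sum.inr a'.2)⟩ at h
      generalize eA d a = u at h
      obtain ⟨b, i⟩ := u
      obtain ⟨b', i'⟩ := a'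
      rw [Sigma.mk.injEq] at h
      obtain ⟨h1, h2⟩ := h
      have h1' : b = b' := h1
      subst h1'
      exact absurd (eq_of_heq h2) Sum.inl_ne_inr
    · exfalso
      change (⟨(eT c d hd hN a).1, Sum.inr (Sum.inl ((eT c d hd hN a).2, x))⟩ :
        Σ b, Sp c d b) = ⟨(eA d a').1, Sum.inl ((eA d a').2, x')⟩ at h
      generalize eT c d hd hN a = u at h
      generalize eA d a' = u' at h
      obtain ⟨b, i⟩ := u
      obtain ⟨b', i'⟩ := u'
      rw [Sigma.mk.injEq] at h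
      obtain ⟨h1, h2⟩ := h
      have h1' : b = b' := h1
      subst h1'
      exact absurd (eq_of_heq h2).symm Sum.inl_ne_inr
    · change (⟨(eT c d hd hN a).1, Sum.inr (Sum.inl ((eT c d hd hN a).2, x))⟩ :
        Σ b, Sp c d b) = ⟨(eT c d hd hN a').1, Sum.inr (Sum.inl ((eT c d hd hN a').2, x'))⟩ at h
      have h1 : eT c d hd hN a = eT c d hd hN a' ∧ x = x' := by
        generalize eT c d hd hN a = u at h ⊢
        generalize eT c d hd hN a' = u' at h ⊢
        obtain ⟨b, i⟩ := u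
        obtain ⟨b', i'⟩ := u'
        rw [Sigma.mk.injEq] at h
        obtain ⟨h1, h2⟩ := h
        have h1' : b = b' := h1
        subst h1'
        have h3 := Sum.inl_injective (Sum.inr_injective (eq_of_heq h2))
        exact ⟨congrArg (Sigma.mk b) (Prod.mk.inj h3).1, (Prod.mk.inj h3).2⟩
      rw [(eT c d hd hN).injective h1.1, h1.2]
    · exfalso
      change (⟨(eT c d hd hN a).1, Sum.inr (Sum.inl ((eT c d hd hN a).2, x))⟩ :
        Σ b, Sp c d b) = ⟨a'.1, Sum.inr (Sum.inr a'.2)⟩ at h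
      generalize eT c d hd hN a = u at h
      obtain ⟨b, i⟩ := u
      obtain ⟨b', i'⟩ := a'
      rw [Sigma.mk.injEq] at h
      obtain ⟨h1, h2⟩ := h
      have h1' : b = b' := h1
      subst h1'
      exact absurd (Sum.inr_injective (eq_of_heq h2)) Sum.inl_ne_inr
    · exfalso
      change (⟨a.1, Sum.inr (Sum.inr a.2)⟩ : Σ b, Sp c d b) =
        ⟨(eA d a').1, Sum.inl ((eA d a').2, x')⟩ at h
      generalize eA d a' = u' at h
      obtain ⟨b, i⟩ := a
      obtain ⟨b', i'⟩ := u'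
      rw [Sigma.mk.injEq] at h
      obtain ⟨h1, h2⟩ := h
      have h1' : b = b' := h1
      subst h1'
      exact absurd (eq_of_heq h2).symm Sum.inl_ne_inr
    · exfalso
      change (⟨a.1, Sum.inr (Sum.inr a.2)⟩ : Σ b, Sp c d b) =
        ⟨(eT c d hd hN a').1, Sum.inr (Sum.inl ((eT c d hd hN a').2, x'))⟩ at h
      generalize eT c d hd hN a' = u' at h
      obtain ⟨b, i⟩ := a
      obtain ⟨b', i'⟩ := u'
      rw [Sigma.mk.injEq] at h
      obtain ⟨h1, h2⟩ := h
      have h1' : b = b' := h1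
      subst h1'
      exact absurd (Sum.inr_injective (eq_of_heq h2)).symm Sum.inl_ne_inr
    · change (⟨a.1, Sum.inr (Sum.inr a.2)⟩ : Σ b, Sp c d b) =
        ⟨a'.1, Sum.inr (Sum.inr a'.2)⟩ at h
      obtain ⟨b, i⟩ := a
      obtain ⟨b', i'⟩ := a'
      rw [Sigma.mk.injEq] at h
      obtain ⟨h1, h2⟩ := h
      have h1' : b = b' := h1
      subst h1'
      have h3 : i = i' := Sum.inr_injective (Sum.inr_injective (eq_of_heq h2))
      rw [h3]
  · rintro ⟨b, (⟨i, x⟩ | (⟨i, x⟩ | r))⟩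
    · refine ⟨Sum.inl ((eA d).symm ⟨b, i⟩, x), ?_⟩
      change (⟨(eA d ((eA d).symm ⟨b, i⟩)).1, Sum.inl ((eA d ((eA d).symm ⟨b, i⟩)).2, x)⟩ :
        Σ b, Sp c d b) = _
      rw [Equiv.apply_symm_apply]
    · refine ⟨Sum.inr (Sum.inl ((eT c d hd hN).symm ⟨b, i⟩, x)), ?_⟩
      change (⟨(eT c d hd hN ((eT c d hd hN).symm ⟨b, i⟩)).1,
        Sum.inr (Sum.inl ((eT c d hd hN ((eT c d hd hN).symm ⟨b, i⟩)).2, x))⟩ :
        Σ b, Sp c d b) = _
      rw [Equiv.apply_symm_apply]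
    · exact ⟨Sum.inr (Sum.inr ⟨b, r⟩), rfl⟩

/-- the rows -/
noncomputable def eS : (Fin (∑ b, d b) × Bool) ⊕ Tp N' (Rr c) ≃ Fin N :=
  (Equiv.ofBijective _ (fS_bij c d hd hN)).trans (eSp c d hd)

theorem c_eS (x : (Fin (∑ b, d b) × Bool) ⊕ Tp N' (Rr c)) :
    c (eS c d hd hN x) = (fS c d hd hN x).1 := c_eSp c d hd _

theorem rN_eS (b : Fin k) :
    rN (fun r : Tp N' (Rr c) => c (eS c d hd hN (Sum.inr r))) b = bsz c b - 2 * d b := by
  have h0 : rN (fun r : Tp N' (Rr c) => c (eS c d hd hN (Sum.inr r))) b =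
      Nat.card {r : (Fin (N' + 2) × Bool) ⊕ Rr c // (fS c d hd hN (Sum.inr r)).1 = b} := by
    unfold rN
    simp only [c_eS]
  have h1 : Nat.card {r : (Fin (N' + 2) × Bool) ⊕ Rr c // (fS c d hd hN (Sum.inr r)).1 = b} =
      Nat.card ({a : Fin (N' + 2) × Bool // (eT c d hd hN a.1).1 = b} ⊕ {r : Rr c // r.1 = b}) :=
    Nat.card_congr (Equiv.subtypeSum (p := fun r => (fS c d hd hN (Sum.inr r)).1 = b))
  have h2 : Nat.card {a : Fin (N' + 2) × Bool // (eT c d hd hN a.1).1 = b} =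
      (bsz c b / 2 - d b) * 2 := by
    rw [Nat.card_congr (Equiv.prodSubtypeFstEquivSubtypeProd
      (p := fun a => (eT c d hd hN a).1 = b)), Nat.card_prod]
    have h3 : Nat.card {a : Fin (N' + 2) // (eT c d hd hN a).1 = b} = bsz c b / 2 - d b := by
      rw [Nat.card_congr (((eT c d hd hN).subtypeEquiv fun a => Iff.rfl).trans
        (Equiv.sigmaSubtype (β := fun b => Fin (bsz c b / 2 - d b)) b)),
        Nat.card_eq_fintype_card, Fintype.card_fin]
    rw [h3, Nat.card_eq_fintype_card, Fintype.card_bool]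
  have h3 : Nat.card {r : Rr c // r.1 = b} = bsz c b % 2 := by
    rw [Nat.card_congr (Equiv.sigmaSubtype (β := fun b => Fin (bsz c b % 2)) b),
      Nat.card_eq_fintype_card, Fintype.card_fin]
  have h4 := hd b
  rw [h0, h1, Nat.card_sum, h2, h3]
  omega

theorem hA_S (a) : c (eS c d hd hN (Sum.inl a)) = c (eS c d hd hN (Sum.inl (fl a))) := by
  rw [c_eS c d hd hN, c_eS c d hd hN]
  rfl

theorem hT_S (a) : c (eS c d hd hN (Sum.inr (Sum.inl a))) =
    c (eS c d hd hN (Sum.inr (Sum.inl (fl a)))) := by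
  rw [c_eS c d hd hN, c_eS c d hd hN]
  rfl

include hd hN in
theorem nonempty_Vq : Nonempty (Vq c) := by
  have hne : eS c d hd hN (Sum.inr (Sum.inl (0, false))) ≠
      eS c d hd hN (Sum.inr (Sum.inl (0, true))) := by
    intro h
    have h1 := Sum.inl_injective (Sum.inr_injective ((eS c d hd hN).injective h))
    exact absurd (congrArg Prod.snd h1) (by simp)
  have hc0 : c (eS c d hd hN (Sum.inr (Sum.inl (0, false)))) =
      c (eS c d hd hN (Sum.inr (Sum.inl (0, true)))) := hT_S c d hd hN (0, false)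
  rcases lt_or_gt_of_ne hne with h | h
  · exact ⟨⟨(_, _), h, hc0⟩⟩
  · exact ⟨⟨(_, _), h, hc0.symm⟩⟩

include hd hN in
/-- the roots which come from `E_d` -/
theorem roots_E {τ : Type} [Fintype τ] [DecidableEq τ] (p : τ → ℕ)
    (hp : ∀ t, p t < rkC c) (t0 : τ) (h0 : ∑ b, d b < p t0)
    (b : Polynomial ℂ) (H : MvPolynomial (Vq c) ℂ)
    (hb : Pool.Agent.W574.LM.IsLocEq H (prodFam fun t => pfC c (p t)) b)
    (hH : MvPolynomial.constantCoeff H ≠ 0)
    (l : ℕ) (hl : l < ∑ t, (p t - ∑ b, d b)) :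
    b.eval (-(((∑ b, (bsz c b - 2 * d b) * (bsz c b - 2 * d b - 1) / 2 : ℕ) : ℂ) + l) /
      (∑ t, (p t - ∑ b, d b) : ℕ)) = 0 := by
  obtain ⟨t1⟩ := nonempty_Vq c d hd hN
  have hA := hA_S c d hd hN
  have hT := hT_S c d hd hN
  refine (gS c (eS c d hd hN) hA hT t1).roots p (fun t => pfC c (p t))
    (fun t => isPf c (eS c d hd hN) hA hT t1 (p t)) (pfC c ((∑ b, d b) + 1))
    (isPf c (eS c d hd hN) hA hT t1 ((∑ b, d b) + 1))
    (fun t => by rw [hN]; exact (hp t).le) t0 h0 (by rw [hN]; exact hp t0) b H hb hH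
    (gS_chart c (eS c d hd hN) hA hT t1) l hl _ ?_
  rw [card_gS]
  simp only [rN_eS]

end Data

theorem codim_pos (d : SLoc c) : 0 < d.codim := by
  obtain ⟨d, b, hb⟩ := d
  change 0 < ∑ b, (bsz c b - 2 * (d b : ℕ)) * (bsz c b - 2 * (d b : ℕ) - 1) / 2
  refine lt_of_lt_of_le ?_ (Finset.single_le_sum
    (f := fun b => (bsz c b - 2 * (d b : ℕ)) * (bsz c b - 2 * (d b : ℕ) - 1) / 2)
    (fun _ _ => Nat.zero_le _) (Finset.mem_univ b))
  have h6 : 2 ≤ bsz c b - 2 * (d b : ℕ) := by omega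
  have h7 : 2 * 1 ≤ (bsz c b - 2 * (d b : ℕ)) * (bsz c b - 2 * (d b : ℕ) - 1) :=
    Nat.mul_le_mul h6 (by omega)
  change 0 < (bsz c b - 2 * (d b : ℕ)) * (bsz c b - 2 * (d b : ℕ) - 1) / 2
  omega

/-- the Pfaffians are not all zero -/
theorem pfC_ne (p : ℕ) (hp : p < rkC c) : ∃ j, pfC c p j ≠ 0 := by
  by_cases h2 : 2 ≤ rkC c
  · have hd : ∀ b : Fin k, (fun _ => 0 : Fin k → ℕ) b ≤ bsz c b / 2 := fun b => Nat.zero_le _
    obtain ⟨N', hN⟩ : ∃ N', (∑ b : Fin k, (fun _ => 0 : Fin k → ℕ) b) + (N' + 2) = rkC c :=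
      ⟨rkC c - 2, by simp only [Finset.sum_const_zero]; omega⟩
    obtain ⟨t1⟩ := nonempty_Vq c _ hd hN
    obtain ⟨ξ, hξ⟩ := gS_chart c (eS c _ hd hN) (hA_S c _ hd hN) (hT_S c _ hd hN) t1 1 one_ne_zero
    obtain ⟨_, F, hF, U, hU, hFU⟩ := (gS c (eS c _ hd hN) (hA_S c _ hd hN) (hT_S c _ hd hN)
      t1).hasOrd_pf 1 one_ne_zero hξ (isPf c (eS c _ hd hN) (hA_S c _ hd hN) (hT_S c _ hd hN) t1 p)
      (by rw [hN]; exact hp.le)
    by_contra hcon
    push Not at hcon
    have h2 : Set.range (pfC c p) ⊆ {0} := by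
      rintro _ ⟨j, rfl⟩
      exact hcon j
    have h3 : F = 0 := by
      have h4 := Submodule.span_mono h2 hF
      simpa using h4
    rw [h3, map_zero] at hFU
    have h5 : U = 0 := by
      by_contra hU0
      exact mul_ne_zero (pow_ne_zero _ (X_ne0 _)) hU0 hFU.symm
    rw [h5, map_zero] at hU
    exact hU rfl
  · obtain rfl : p = 0 := by omega
    refine ⟨Fin.castLEOrderEmb (Nat.zero_le _), ?_⟩
    rw [pfC]
    have h3 : pf (2 * 0) ((bM c).submatrix (Fin.castLEOrderEmb (Nat.zero_le N))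
        (Fin.castLEOrderEmb (Nat.zero_le N))) = 1 := rfl
    rw [h3, map_one]
    exact one_ne_zero

/-- **The system of the Pfaffians of a block diagonal skew symmetric matrix.** -/
theorem sysS {T : ℕ} (p : Fin T → ℕ) (hp : ∀ t, p t < rkC c) :
    RootSys (σ := SVar c) (κ := fun t => PIdx N (p t))
      (fun t j => map (Int.castRingHom ℂ) (pfaf c (p t) j))
      (fun d : SLoc c => d.codim) (fun d t => p t - d.sum) where
  ne := fun t => pfC_ne c (p t) (hp t)
  pos := codim_pos c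
  roots := fun {τ} _ _ π b H hH hb d l hl => by
    obtain ⟨x, _, hx⟩ := Finset.exists_ne_zero_of_sum_ne_zero
      (by omega : ∑ x, (p (π x) - d.sum) ≠ 0)
    have h1 : d.sum < p (π x) := by omega
    have h2 := hp (π x)
    obtain ⟨N', hN'⟩ : ∃ N', (∑ b, (d.1 b : ℕ)) + (N' + 2) = rkC c :=
      ⟨rkC c - d.sum - 2, by
        change d.sum + _ = _
        omega⟩
    exact roots_E c (fun b => (d.1 b : ℕ)) (fun b => Nat.lt_succ_iff.1 (d.1 b).2) hN'
      (fun x => p (π x)) (fun x => hp (π x)) x h1 b H hb hH l hl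

end Pool.Agent.J6H7.SK
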