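import Pool.Agent.J6H7.SK.Skew

set_option autoImplicit false
set_option linter.unusedSectionVars false
set_option linter.unusedVariables false

/-! # The coordinates on the divisors, given by Pfaffians -/

namespace Pool.Agent.J6H7.SK

open MvPowerSeries Pool.Agent.W574.SM Pool.Agent.TH192.DT

namespace Sb

variable {R σ : Type} [Fintype R] [DecidableEq R] [Fintype σ] [DecidableEq σ] {d N : ℕ}
  (S : Sb d N R σ)

/-- the skew symmetric matrix of variables -/
noncomputable def P : Matrix ((Fin d × Bool) ⊕ Tp N R) ((Fin d × Bool) ⊕ Tp N R)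
    (MvPolynomial σ ℂ) :=
  Matrix.of fun x y => MvPolynomial.C (S.sg x y) * MvPolynomial.X (S.ix x y)

/-- The members of the family are the square roots of the principal minors of size `2 p`. -/
structure IsPf (p : ℕ) {ι : Type} (f : ι → MvPolynomial σ ℂ) : Prop where
  sq : ∀ j, ∃ r : Fin (2 * p) → (Fin d × Bool) ⊕ Tp N R, f j ^ 2 = (S.P.submatrix r r).det
  ex : ∀ r : Fin (2 * p) → (Fin d × Bool) ⊕ Tp N R, Function.Injective r →
    ∃ j, f j ^ 2 = (S.P.submatrix r r).det

variable (lam : ℂ) (hlam : lam ≠ 0) {ξ : σ → MvPowerSeries σ ℂ}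
  (hξ : (S.D lam hlam).IsChart ξ) {p : ℕ} {ι : Type} {f : ι → MvPolynomial σ ℂ}
  (hf : S.IsPf p f)

include hξ hf

theorem exists_special {q : ℕ} {Q : Type} [Fintype Q] [DecidableEq Q]
    (hQ : Fintype.card Q = 2 * q) (eP : (Fin d × Bool) ⊕ Q ≃ Fin (2 * p)) (ρ : Q → Tp N R)
    (hρ : Function.Injective ρ) :
    ∃ j w, MvPolynomial.aeval ξ (f j) = X (S.D lam hlam).z ^ q * w ∧
      w ^ 2 = (S.D lam hlam).mA.det * (((S.D lam hlam).mY).submatrix ρ ρ).det := by
  obtain ⟨j, hj⟩ := hf.ex (fun i => Sum.map id ρ (eP.symm i))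
    ((Sum.map_injective.2 ⟨Function.injective_id, hρ⟩).comp eP.symm.injective)
  have h1 := congrArg (MvPolynomial.aeval ξ) hj
  have h2 := (S.D lam hlam).aeval_det hξ (fun i => Sum.map id ρ (eP.symm i))
    (fun i => Sum.map id ρ (eP.symm i))
  have h3 := (S.D lam hlam).special_minor eP ρ ρ
  rw [map_pow] at h1
  have h4 := h1.trans (h2.trans h3)
  rw [hQ] at h4
  obtain ⟨w, hw, hw2⟩ := exists_root _ _ _ _ h4
  exact ⟨j, w, hw, hw2⟩

omit hξ hf in
theorem cc_detY {Q : Type} [Fintype Q] [DecidableEq Q] (ρ : Q → Tp N R) :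
    constantCoeff (((S.D lam hlam).mY).submatrix ρ ρ).det = (S.Y1.submatrix ρ ρ).det := by
  rw [RingHom.map_det]
  congr 1
  ext1 x y
  rw [RingHom.mapMatrix_apply, Matrix.map_apply, Matrix.submatrix_apply, Matrix.submatrix_apply,
    ← jet_fst (S.D lam hlam).z, Mt.jet_mY]
  simp
  rfl

/-- the pairs of `K` -/
def pr {q : ℕ} (K : Fin q → Fin (N + 2)) (x : Fin q × Bool) : Tp N R :=
  Sum.inl (K x.1, x.2)

omit [Fintype R] [DecidableEq R] [Fintype σ] [DecidableEq σ] hξ hf in
theorem pr_inj {q : ℕ} (K : Fin q → Fin (N + 2)) (hK : Function.Injective K) :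
    Function.Injective (pr (R := R) K) := by
  rintro ⟨a, b⟩ ⟨a', b'⟩ h
  rw [pr, pr] at h
  have h1 := Sum.inl_injective h
  rw [Prod.mk.injEq] at h1
  exact Prod.ext (hK h1.1) h1.2

/-- the signs of the pairs of `K` -/
noncomputable def sp {q : ℕ} (K : Fin q → Fin (N + 2)) (x y : Fin q × Bool) : ℂ :=
  S.sg (Sum.inr (pr K x)) (Sum.inr (pr K y))

omit [Fintype R] [DecidableEq R] [Fintype σ] [DecidableEq σ] hξ hf in
theorem sp_sq {q : ℕ} (K : Fin q → Fin (N + 2)) (hK : Function.Injective K) (x : Fin q × Bool) :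
    S.sp K x (fl x) * S.sp K x (fl x) = 1 := by
  apply S.sg_sq
  exact S.parT (K x.1, x.2)

omit [Fintype R] [DecidableEq R] [Fintype σ] [DecidableEq σ] hξ hf in
theorem Y1_pr {q : ℕ} (K : Fin q → Fin (N + 2)) (hK : Function.Injective K) :
    S.Y1.submatrix (pr K) (pr K) = jm (S.sp K) := by
  ext1 x y
  rw [Matrix.submatrix_apply, pr, pr, Y1, Matrix.fromBlocks_apply₁₁, jm, jm, Matrix.of_apply,
    Matrix.of_apply, sp, pr, pr]
  have h1 : ((K y.1, y.2) = fl (K x.1, x.2)) ↔ y = fl x := by
    rw [fl, fl, Prod.mk.injEq]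
    constructor
    · rintro ⟨h1, h2⟩
      exact Prod.ext (hK h1) h2
    · intro h
      rw [h]
      exact ⟨rfl, rfl⟩
  simp only [h1]

/-- the order of the Pfaffians along the divisor -/
theorem hasOrd_pf (hp : p ≤ d + (N + 2)) : HasOrd (S.D lam hlam).z ξ (p - d) f := by
  have hcA : Fintype.card (Fin d × Bool) = 2 * d := by
    simp [mul_comm]
  refine ⟨fun j => ?_, ?_⟩
  · obtain ⟨r, hr⟩ := hf.sq j
    rcases Nat.lt_or_ge p d with h | h
    · rw [Nat.sub_eq_zero_of_le h.le, pow_zero]
      exact one_dvd _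
    · apply dvd_of_sq
      rw [← map_pow, hr]
      have h2 := (S.D lam hlam).aeval_det hξ r r
      have h3 := (S.D lam hlam).dvd_minor (2 * (p - d))
        (by rw [Fintype.card_fin, hcA]; omega) r r
      rw [← h2] at h3
      exact h3
  · rcases Nat.lt_or_ge p d with h | h
    · -- inside of the block `A`
      have eP : Fin p × Bool ≃ Fin (2 * p) := Fintype.equivOfCardEq (by simp [mul_comm])
      set u : Fin p × Bool → Fin d × Bool := fun x => (Fin.castLE h.le x.1, x.2) with hu
      have hui : Function.Injective u := by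
        rintro ⟨a, b⟩ ⟨a', b'⟩ h1
        simp only [hu, Prod.mk.injEq] at h1
        exact Prod.ext (Fin.castLE_injective _ h1.1) h1.2
      obtain ⟨j, hj⟩ := hf.ex (fun i => Sum.inl (u (eP.symm i)))
        (Sum.inl_injective.comp (hui.comp eP.symm.injective))
      refine ⟨f j, Submodule.subset_span ⟨j, rfl⟩, MvPolynomial.aeval ξ (f j), ?_, ?_⟩
      · intro h0
        have h1 := congrArg (MvPolynomial.aeval ξ) hj
        rw [map_pow] at h1
        have h2 := (S.D lam hlam).aeval_det hξ (fun i => Sum.inl (u (eP.symm i)))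
          (fun i => Sum.inl (u (eP.symm i)))
        have h3 := congrArg constantCoeff (h1.trans h2)
        rw [map_pow, h0, (S.D lam hlam).minor_A (fun i => u (eP.symm i))
          (fun i => u (eP.symm i))] at h3
        have h4 : ((S.D lam hlam).A0.submatrix (fun i => u (eP.symm i)) (fun i => u (eP.symm i)))
            = (lam • jm (fun x y => S.sg (Sum.inl (u x)) (Sum.inl (u y)))).submatrix eP.symm
              eP.symm := by
          ext1 x y
          change lam • S.A1 (u (eP.symm x)) (u (eP.symm y)) = lam • jm _ (eP.symm x) (eP.symm y)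
          congr 1
          rw [A1, jm, jm, Matrix.of_apply, Matrix.of_apply]
          have h5 : (u (eP.symm y) = fl (u (eP.symm x))) ↔ eP.symm y = fl (eP.symm x) := by
            have h6 : fl (u (eP.symm x)) = u (fl (eP.symm x)) := rfl
            rw [h6, hui.eq_iff]
          simp only [h5]
        rw [h4, Matrix.det_submatrix_equiv_self, Matrix.det_smul] at h3
        have h7 := det_jm (fun x y => S.sg (Sum.inl (u x)) (Sum.inl (u y))) (fun x =>
          S.sg_sq _ _ (S.parA (u x)))
        rw [zero_pow two_ne_zero, eq_comm, mul_eq_zero] at h3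
        rcases h3 with h3 | h3
        · exact pow_ne_zero _ hlam h3
        · rw [h3, mul_zero] at h7
          exact zero_ne_one h7
      · rw [Nat.sub_eq_zero_of_le h.le, pow_zero, one_mul]
    · have eP : (Fin d × Bool) ⊕ (Fin (p - d) × Bool) ≃ Fin (2 * p) :=
        Fintype.equivOfCardEq (by
          rw [Fintype.card_sum, hcA, Fintype.card_prod, Fintype.card_fin, Fintype.card_fin,
            Fintype.card_bool]
          omega)
      set K : Fin (p - d) → Fin (N + 2) := Fin.castLE (by omega) with hK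
      have hKi : Function.Injective K := Fin.castLE_injective _
      obtain ⟨j, w, hw, hw2⟩ := S.exists_special lam hlam hξ hf (q := p - d)
        (by rw [Fintype.card_prod, Fintype.card_fin, Fintype.card_bool, mul_comm]) eP (pr K)
        (pr_inj K hKi)
      refine ⟨f j, Submodule.subset_span ⟨j, rfl⟩, w, ?_, hw⟩
      intro h0
      have h1 := congrArg constantCoeff hw2
      rw [map_pow, h0, map_mul, Mt.cc_detA, S.cc_detY, S.Y1_pr K hKi, zero_pow two_ne_zero,
        eq_comm, mul_eq_zero] at h1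
      rcases h1 with h1 | h1
      · exact (S.D lam hlam).hA0 h1
      · have h7 := det_jm (S.sp K) (S.sp_sq K hKi)
        rw [h1, mul_zero] at h7
        exact zero_ne_one h7

end Sb

end Pool.Agent.J6H7.SK
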