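import Pool.Agent.J6H7.SK.PfFam

set_option autoImplicit false
set_option linter.unusedSectionVars false
set_option linter.unusedVariables false

/-! # The coordinates on the divisors, given by Pfaffians -/

namespace Pool.Agent.J6H7.SK

open MvPowerSeries Pool.Agent.W574.SM Pool.Agent.TH192.DT

theorem prod_one_inr {Q : Type} (s : Finset Q) (c : Q → ℂ) :
    ∏ i ∈ s, ((TrivSqZeroExt.inl 1 + TrivSqZeroExt.inr (c i) : DualNumber ℂ))
      = TrivSqZeroExt.inl 1 + TrivSqZeroExt.inr (∑ i ∈ s, c i) := by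
  classical
  induction s using Finset.induction_on with
  | empty => simp
  | insert a s ha ih =>
    rw [Finset.prod_insert ha, Finset.sum_insert ha, ih]
    ext <;> simp
    ring

namespace Sb

variable {R σ : Type} [Fintype R] [DecidableEq R] [Fintype σ] [DecidableEq σ] {d N : ℕ}
  (S : Sb d N R σ)

/-- the index of the coordinate of a pair -/
def cd (k : Fin (N + 2)) : σ :=
  S.ix (Sum.inr (Sum.inl (k, false))) (Sum.inr (Sum.inl (k, true)))

theorem cd_eq {q : ℕ} (K : Fin q → Fin (N + 2)) (x : Fin q × Bool) :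
    S.ix (Sum.inr (pr K x)) (Sum.inr (pr K (fl x))) = S.cd (K x.1) := by
  rcases x with ⟨a, b⟩
  cases b
  · rfl
  · exact S.ix_symm _ _

theorem cd_inj {i k : Fin (N + 2)} (h : S.cd i = S.cd k) : i = k := by
  rcases S.ix_inj _ _ _ _ (S.parT (i, false)) (S.parT (k, false)) h with h | h
  · simpa using h.1
  · simpa [fl] using h.1

/-- the sum of the infinitesimal coordinates -/
noncomputable def sk (l : σ) {q : ℕ} (K : Fin q → Fin (N + 2)) : ℂ :=
  ∑ x : Fin q × Bool, if l = S.cd (K x.1) then 1 else 0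

variable (lam : ℂ) (hlam : lam ≠ 0)

theorem jet_pr (l : σ) (hl : l ≠ (S.D lam hlam).z) {q : ℕ} (K : Fin q → Fin (N + 2))
    (hK : Function.Injective K) :
    jet l (((S.D lam hlam).mY).submatrix (pr K) (pr K)).det
      = TrivSqZeroExt.inl (jm (S.sp K)).det *
        (TrivSqZeroExt.inl 1 + TrivSqZeroExt.inr (S.sk l K)) := by
  set κ : Fin q × Bool → Fin q × Bool → ℂ := fun x y =>
    if l = S.ix (Sum.inr (pr K x)) (Sum.inr (pr K y)) then S.sp K x y else 0 with hκ
  set M : Matrix (Fin q × Bool) (Fin q × Bool) (DualNumber ℂ) :=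
    (jet l).mapMatrix (((S.D lam hlam).mY).submatrix (pr K) (pr K)) with hM
  set J : Matrix (Fin q × Bool) (Fin q × Bool) (DualNumber ℂ) :=
    (TrivSqZeroExt.inlHom ℂ ℂ).mapMatrix (jm (S.sp K)).transpose with hJ
  have hMe : ∀ x y, M x y = TrivSqZeroExt.inl (jm (S.sp K) x y) + TrivSqZeroExt.inr (κ x y) := by
    intro x y
    rw [hM, RingHom.mapMatrix_apply, Matrix.map_apply, Matrix.submatrix_apply, Mt.jet_mY]
    congr 2
    · exact congrFun (congrFun (S.Y1_pr K hK) x) y
    · rw [hκ]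
      simp only [hl, ne_eq, not_false_eq_true, and_true]
      rfl
  have hJe : ∀ x y, J x y = TrivSqZeroExt.inl (jm (S.sp K) y x) := by
    intro x y
    rw [hJ, RingHom.mapMatrix_apply, Matrix.map_apply, Matrix.transpose_apply]
    rfl
  have hMJ : ∀ x y, (M * J) x y = TrivSqZeroExt.inl ((1 : Matrix _ _ ℂ) x y) +
      TrivSqZeroExt.inr (κ x (fl y) * S.sp K y (fl y)) := by
    intro x y
    rw [Matrix.mul_apply, ← jm_mul (S.sp K) (S.sp_sq K hK), Matrix.mul_apply]
    simp only [hMe, hJe, add_mul, Finset.sum_add_distrib, Matrix.transpose_apply]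
    congr 1
    · simp only [← TrivSqZeroExt.inl_mul]
      exact (map_sum (TrivSqZeroExt.inlHom ℂ ℂ) _ _).symm
    · rw [Finset.sum_eq_single (fl y)]
      · have h1 : jm (S.sp K) y (fl y) = S.sp K y (fl y) := by
          rw [jm, Matrix.of_apply, if_pos rfl]
        rw [h1]
        ext
        · simp
        · simp
      · intro b _ hb
        have h1 : jm (S.sp K) y b = 0 := by
          rw [jm, Matrix.of_apply, if_neg hb]
        rw [h1]
        simp
      · intro h; exact absurd (Finset.mem_univ _) h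
  have hdet : (M * J).det = TrivSqZeroExt.inl 1 + TrivSqZeroExt.inr (S.sk l K) := by
    rw [det_offdiag]
    · have h1 : ∀ x, (M * J) x x = TrivSqZeroExt.inl 1 + TrivSqZeroExt.inr
          (if l = S.cd (K x.1) then 1 else 0) := by
        intro x
        rw [hMJ, Matrix.one_apply_eq, hκ]
        congr 2
        simp only [S.cd_eq]
        split_ifs
        · exact S.sp_sq K hK x
        · rw [zero_mul]
      simp only [h1]
      exact prod_one_inr _ _
    · intro i j k m hij hkm
      rw [hMJ, hMJ, Matrix.one_apply_ne hij, Matrix.one_apply_ne hkm]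
      simp
  have hJd : J.det = TrivSqZeroExt.inl (jm (S.sp K)).det := by
    rw [hJ, ← RingHom.map_det, Matrix.det_transpose]
    rfl
  have h2 : (TrivSqZeroExt.inl (jm (S.sp K)).det : DualNumber ℂ) *
      TrivSqZeroExt.inl (jm (S.sp K)).det = 1 := by
    rw [← TrivSqZeroExt.inl_mul, det_jm (S.sp K) (S.sp_sq K hK)]
    rfl
  rw [Matrix.det_mul, hJd] at hdet
  rw [RingHom.map_det]
  change M.det = _
  rw [← hdet]
  linear_combination (- M.det) * h2

theorem sk_cons (l : σ) {q : ℕ} (k : Fin (N + 2)) (K : Fin q → Fin (N + 2)) :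
    S.sk l (Fin.cons k K : Fin (q + 1) → Fin (N + 2))
      = 2 * (if l = S.cd k then 1 else 0) + S.sk l K := by
  rw [sk, sk, Fintype.sum_prod_type, Fintype.sum_prod_type, Fin.sum_univ_succ]
  simp only [Fin.cons_zero, Fin.cons_succ, Fintype.sum_bool]
  ring

variable {ξ : σ → MvPowerSeries σ ℂ}
  (hξ : (S.D lam hlam).IsChart ξ) {p : ℕ} {ι : Type} {f : ι → MvPolynomial σ ℂ}
  (hf : S.IsPf p f)

include hξ hf

/-- the coordinates of the pairs -/
theorem gives_pair (h0 : d < p) (h1 : p < d + (N + 2)) (i : Fin (N + 2))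
    (hi : i ≠ Fin.last _) : Gives (S.D lam hlam).z ξ (p - d) f (S.cd i) := by
  have hcA : Fintype.card (Fin d × Bool) = 2 * d := by
    simp [mul_comm]
  obtain ⟨q, hq⟩ : ∃ q, p - d = q + 1 := ⟨p - d - 1, by omega⟩
  have hqn : q ≤ N := by omega
  obtain ⟨κ, hκ, hκ2⟩ : ∃ κ : Fin q → Fin (N + 2), Function.Injective κ ∧
      ∀ a, κ a ≠ i ∧ κ a ≠ Fin.last _ := by
    obtain ⟨κ, h1, h2⟩ := exists_avoid N i (Fin.last _)
    exact ⟨fun a => κ (Fin.castLE hqn a), h1.comp (Fin.castLE_injective _), fun a => h2 _⟩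
  have hKi : ∀ k, (∀ a, κ a ≠ k) →
      Function.Injective (Fin.cons k κ : Fin (q + 1) → Fin (N + 2)) := by
    intro k hk
    rw [Fin.cons_injective_iff]
    refine ⟨?_, hκ⟩
    rintro ⟨a, ha⟩
    exact hk a ha
  have eP : (Fin d × Bool) ⊕ (Fin (q + 1) × Bool) ≃ Fin (2 * p) :=
    Fintype.equivOfCardEq (by
      rw [Fintype.card_sum, hcA, Fintype.card_prod, Fintype.card_fin, Fintype.card_fin,
        Fintype.card_bool]
      omega)
  have hcQ : Fintype.card (Fin (q + 1) × Bool) = 2 * (q + 1) := by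
    rw [Fintype.card_prod, Fintype.card_fin, Fintype.card_bool, mul_comm]
  obtain ⟨j1, w1, hw1, hw1'⟩ := S.exists_special lam hlam hξ hf hcQ eP _
    (pr_inj _ (hKi i fun a => (hκ2 a).1))
  obtain ⟨j2, w2, hw2, hw2'⟩ := S.exists_special lam hlam hξ hf hcQ eP _
    (pr_inj _ (hKi (Fin.last _) fun a => (hκ2 a).2))
  set α : ℂ := (S.D lam hlam).A0.det with hα
  have hα0 : α ≠ 0 := (S.D lam hlam).hA0
  set D1 : ℂ := (jm (S.sp (Fin.cons i κ : Fin (q + 1) → Fin (N + 2)))).det with hD1
  set D2 : ℂ := (jm (S.sp (Fin.cons (Fin.last _) κ : Fin (q + 1) → Fin (N + 2)))).det with hD2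
  have hD1' : D1 * D1 = 1 := det_jm _ (S.sp_sq _ (hKi i fun a => (hκ2 a).1))
  have hD2' : D2 * D2 = 1 := det_jm _ (S.sp_sq _ (hKi (Fin.last _) fun a => (hκ2 a).2))
  have hjA : ∀ l, jet l (S.D lam hlam).mA.det
      = TrivSqZeroExt.inl α + TrivSqZeroExt.inr (jet l (S.D lam hlam).mA.det).snd := by
    intro l
    ext
    · rw [jet_fst, Mt.cc_detA]; simp [hα]
    · simp
  have e1 : ∀ l, l ≠ (S.D lam hlam).z → constantCoeff w1 ^ 2 = α * D1 ∧
      2 * constantCoeff w1 * coeff (Finsupp.single l 1) w1 = D1 *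
        ((jet l (S.D lam hlam).mA.det).snd + α * (2 * (if l = S.cd i then 1 else 0)
          + S.sk l κ)) := by
    intro l hl
    have h2 := congrArg (jet l) hw1'
    rw [map_pow, map_mul, S.jet_pr lam hlam l hl _ (hKi i fun a => (hκ2 a).1), hjA, S.sk_cons]
      at h2
    have h3 := congrArg TrivSqZeroExt.fst h2
    have h4 := congrArg TrivSqZeroExt.snd h2
    rw [pow_two, TrivSqZeroExt.fst_mul, jet_fst] at h3
    rw [pow_two, TrivSqZeroExt.snd_mul, jet_fst, jet_snd] at h4
    generalize (if l = S.cd i then (1 : ℂ) else 0) = u at h3 h4 ⊢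
    simp at h3 h4
    refine ⟨by rw [pow_two]; exact h3, ?_⟩
    linear_combination h4
  have e2 : ∀ l, l ≠ (S.D lam hlam).z → constantCoeff w2 ^ 2 = α * D2 ∧
      2 * constantCoeff w2 * coeff (Finsupp.single l 1) w2 = D2 *
        ((jet l (S.D lam hlam).mA.det).snd + α * (2 * (if l = S.cd (Fin.last _) then 1 else 0)
          + S.sk l κ)) := by
    intro l hl
    have h2 := congrArg (jet l) hw2'
    rw [map_pow, map_mul, S.jet_pr lam hlam l hl _ (hKi (Fin.last _) fun a => (hκ2 a).2), hjA,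
      S.sk_cons] at h2
    have h3 := congrArg TrivSqZeroExt.fst h2
    have h4 := congrArg TrivSqZeroExt.snd h2
    rw [pow_two, TrivSqZeroExt.fst_mul, jet_fst] at h3
    rw [pow_two, TrivSqZeroExt.snd_mul, jet_fst, jet_snd] at h4
    generalize (if l = S.cd (Fin.last (N + 1)) then (1 : ℂ) else 0) = u at h3 h4 ⊢
    simp at h3 h4
    refine ⟨by rw [pow_two]; exact h3, ?_⟩
    linear_combination h4
  have hiz : S.cd i ≠ (S.D lam hlam).z := fun h => hi (S.cd_inj h)
  have hc1 : constantCoeff w1 ≠ 0 := by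
    intro h
    have h2 := (e1 _ hiz).1
    rw [h, zero_pow two_ne_zero, eq_comm, mul_eq_zero] at h2
    rcases h2 with h2 | h2
    · exact hα0 h2
    · rw [h2, mul_zero] at hD1'
      exact zero_ne_one hD1'
  have hc2 : constantCoeff w2 ≠ 0 := by
    intro h
    have h2 := (e2 _ hiz).1
    rw [h, zero_pow two_ne_zero, eq_comm, mul_eq_zero] at h2
    rcases h2 with h2 | h2
    · exact hα0 h2
    · rw [h2, mul_zero] at hD2'
      exact zero_ne_one hD2'
  have hcoef : ∀ l, l ≠ (S.D lam hlam).z → coeff (Finsupp.single l 1)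
      (w1 - (constantCoeff w1 / constantCoeff w2) • w2)
        = constantCoeff w1 * (if l = S.cd i then 1 else 0) := by
    intro l hl
    obtain ⟨a1, a2⟩ := e1 l hl
    obtain ⟨b1, b2⟩ := e2 l hl
    have hlz : ¬ l = S.cd (Fin.last _) := hl
    rw [if_neg hlz] at b2
    rw [map_sub, map_smul, smul_eq_mul]
    have h5 : 2 * α * coeff (Finsupp.single l 1) w1 = constantCoeff w1 *
        ((jet l (S.D lam hlam).mA.det).snd + α * (2 * (if l = S.cd i then 1 else 0)
          + S.sk l κ)) := by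
      apply mul_left_cancel₀ hc1
      linear_combination α * a2 - ((jet l (S.D lam hlam).mA.det).snd + α * (2 * (if l = S.cd i
        then 1 else 0) + S.sk l κ)) * a1
    have h6 : 2 * α * coeff (Finsupp.single l 1) w2 = constantCoeff w2 *
        ((jet l (S.D lam hlam).mA.det).snd + α * (2 * 0 + S.sk l κ)) := by
      apply mul_left_cancel₀ hc2
      linear_combination α * b2 - ((jet l (S.D lam hlam).mA.det).snd + α * (2 * 0
        + S.sk l κ)) * b1
    have h7 : (2 * α) ≠ 0 := mul_ne_zero two_ne_zero hα0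
    apply mul_left_cancel₀ h7
    have h8 : constantCoeff w1 / constantCoeff w2 * constantCoeff w2 = constantCoeff w1 :=
      div_mul_cancel₀ _ hc2
    linear_combination h5 - (constantCoeff w1 / constantCoeff w2) * h6 -
      ((jet l (S.D lam hlam).mA.det).snd + α * (2 * 0 + S.sk l κ)) * h8
  refine ⟨f j1 - (constantCoeff w1 / constantCoeff w2) • f j2,
    Submodule.sub_mem _ (Submodule.subset_span ⟨_, rfl⟩)
      (Submodule.smul_mem _ _ (Submodule.subset_span ⟨_, rfl⟩)),
    w1 - (constantCoeff w1 / constantCoeff w2) • w2, ⟨?_, ?_, ?_⟩, ?_⟩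
  · rw [map_sub, smul_eq_C_mul, map_mul, constantCoeff_C, div_mul_cancel₀ _ hc2, sub_self]
  · rw [hcoef _ hiz, if_pos rfl, mul_one]
    exact hc1
  · intro l hl hli
    rw [hcoef l hl, if_neg hli, mul_zero]
  · rw [map_sub, map_smul, hw1, hw2, hq, mul_sub, mul_smul_comm]

end Sb

end Pool.Agent.J6H7.SK
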