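import Pool.Agent.J6H7.SK.PfGives

set_option autoImplicit false
set_option linter.unusedSectionVars false
set_option linter.unusedVariables false

/-! # The other coordinates on the divisors, given by Pfaffians -/

namespace Pool.Agent.J6H7.SK

open MvPowerSeries Pool.Agent.W574.SM Pool.Agent.TH192.DT

theorem coeff_one_of_sq (w : PowerSeries ℂ) (c : ℂ) (hc : c ≠ 0)
    (h : w ^ 2 = PowerSeries.C c * PowerSeries.X ^ 2) :
    PowerSeries.constantCoeff w = 0 ∧ PowerSeries.coeff 1 w ≠ 0 := by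
  have h0 : PowerSeries.constantCoeff w = 0 := by
    have h1 := congrArg PowerSeries.constantCoeff h
    rw [map_pow, map_mul, map_pow, PowerSeries.constantCoeff_X, zero_pow two_ne_zero, mul_zero]
      at h1
    exact pow_eq_zero_iff two_ne_zero |>.1 h1
  refine ⟨h0, fun h1 => hc ?_⟩
  obtain ⟨u, hu⟩ := PowerSeries.X_dvd_iff.2 h0
  have h2 : PowerSeries.coeff 0 u = 0 := by
    rw [hu, PowerSeries.coeff_succ_X_mul] at h1
    exact h1
  have h3 : u ^ 2 = PowerSeries.C c := by
    have h4 : (PowerSeries.X : PowerSeries ℂ) ^ 2 ≠ 0 := pow_ne_zero _ PowerSeries.X_ne_zero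
    apply mul_left_cancel₀ h4
    rw [hu] at h
    linear_combination h
  have h5 := congrArg (PowerSeries.coeff 0) h3
  rw [PowerSeries.coeff_zero_eq_constantCoeff_apply, map_pow,
    ← PowerSeries.coeff_zero_eq_constantCoeff_apply, h2, zero_pow two_ne_zero,
    PowerSeries.coeff_zero_C] at h5
  exact h5.symm

namespace Sb

variable {R σ : Type} [Fintype R] [DecidableEq R] [Fintype σ] [DecidableEq σ] {d N : ℕ}
  (S : Sb d N R σ)

/-- the rows of `κ`, and two more rows -/
def tw {q : ℕ} (κ : Fin q → Fin (N + 2)) (r c : Tp N R) : (Fin q × Bool) ⊕ Fin 2 → Tp N R :=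
  Sum.elim (pr κ) ![r, c]

variable {q : ℕ} {κ : Fin q → Fin (N + 2)} {r c : Tp N R}

theorem tw_inj (hκ : Function.Injective κ) (hrc : r ≠ c) (hr : ∀ x, r ≠ pr κ x)
    (hc : ∀ x, c ≠ pr κ x) : Function.Injective (tw κ r c) := by
  have h1 : ∀ x, tw κ r c (Sum.inl x) = pr κ x := fun _ => rfl
  have h2 : tw κ r c (Sum.inr 0) = r := rfl
  have h3 : tw κ r c (Sum.inr 1) = c := rfl
  rintro (x | x) (y | y) h
  · rw [h1, h1] at h
    rw [pr_inj κ hκ h]
  · fin_cases y
    · exact absurd h.symm (hr x)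
    · exact absurd h.symm (hc x)
  · fin_cases x
    · exact absurd h (hr y)
    · exact absurd h (hc y)
  · fin_cases x <;> fin_cases y
    · rfl
    · exact absurd h hrc
    · exact absurd h.symm hrc
    · rfl

/-- `a` is not the partner of `b` -/
theorem Y1_zero (a b : Tp N R) (h : ∀ x, a = Sum.inl x → b ≠ Sum.inl (fl x)) :
    S.Y1 a b = 0 := by
  rcases a with a | a <;> rcases b with b | b
  · rw [Y1, Matrix.fromBlocks_apply₁₁, jm, Matrix.of_apply, if_neg]
    intro h1
    exact h a rfl (by rw [h1])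
  · rfl
  · rfl
  · rfl

/-- the rows `r` of the submatrix vanish at the base point -/
theorem Y1_row (hκr : ∀ a b, r ≠ Sum.inl (κ a, b)) (hrc : ∀ x, r = Sum.inl x → c ≠ Sum.inl (fl x))
    (y : (Fin q × Bool) ⊕ Fin 2) : S.Y1 r (tw κ r c y) = 0 := by
  apply S.Y1_zero
  intro x hx
  rcases y with y | y
  · intro h
    change (Sum.inl (κ y.1, y.2) : Tp N R) = Sum.inl (fl x) at h
    have h1 := Sum.inl_injective h
    have h2 : x = (κ y.1, !y.2) := by
      rw [← fl_fl x, ← h1]
      rfl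
    exact hκr y.1 (!y.2) (by rw [hx, h2])
  · fin_cases y
    · intro h
      change r = Sum.inl (fl x) at h
      rw [hx] at h
      exact fl_ne x (Sum.inl_injective h).symm
    · exact hrc x hx

theorem Y1_row' (hκc : ∀ a b, c ≠ Sum.inl (κ a, b))
    (hcr : ∀ x, c = Sum.inl x → r ≠ Sum.inl (fl x))
    (y : (Fin q × Bool) ⊕ Fin 2) : S.Y1 c (tw κ r c y) = 0 := by
  apply S.Y1_zero
  intro x hx
  rcases y with y | y
  · intro h
    change (Sum.inl (κ y.1, y.2) : Tp N R) = Sum.inl (fl x) at h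
    have h1 := Sum.inl_injective h
    have h2 : x = (κ y.1, !y.2) := by
      rw [← fl_fl x, ← h1]
      rfl
    exact hκc y.1 (!y.2) (by rw [hx, h2])
  · fin_cases y
    · exact hcr x hx
    · intro h
      change c = Sum.inl (fl x) at h
      rw [hx] at h
      exact fl_ne x (Sum.inl_injective h).symm

variable (lam : ℂ) (hlam : lam ≠ 0)

theorem axis_entry (l : σ) (hl : l ≠ (S.D lam hlam).z) (a b : Tp N R) (h : S.Y1 a b = 0)
    (h2 : S.sg (Sum.inr a) (Sum.inr b) ≠ 0 → l ≠ S.ix (Sum.inr a) (Sum.inr b)) :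
    axis l ((S.D lam hlam).mY a b) = 0 := by
  rw [(S.D lam hlam).axis_mY l hl]
  change PowerSeries.C (S.Y1 a b) + PowerSeries.C (S.sg (Sum.inr a) (Sum.inr b)) *
    (if l = S.ix (Sum.inr a) (Sum.inr b) then PowerSeries.X else 0) = 0
  rw [h, map_zero, zero_add]
  by_cases hab : S.sg (Sum.inr a) (Sum.inr b) = 0
  · rw [hab, map_zero, zero_mul]
  · rw [if_neg (h2 hab), mul_zero]

/-- the determinant along the other axes -/
theorem axis_det_zero (l : σ) (hl : l ≠ (S.D lam hlam).z) (hκ : Function.Injective κ)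
    (hκr : ∀ a b, r ≠ Sum.inl (κ a, b)) (hκc : ∀ a b, c ≠ Sum.inl (κ a, b))
    (hrc : ∀ x, r = Sum.inl x → c ≠ Sum.inl (fl x))
    (hcr : ∀ x, c = Sum.inl x → r ≠ Sum.inl (fl x))
    (hsg : S.sg (Sum.inr r) (Sum.inr c) ≠ 0)
    (hlt : l ≠ S.ix (Sum.inr r) (Sum.inr c)) :
    axis l (((S.D lam hlam).mY).submatrix (tw κ r c) (tw κ r c)).det = 0 := by
  have hne : r ≠ c := fun h => S.ne_of_sg hsg (congrArg Sum.inr h)
  rw [RingHom.map_det]
  by_cases h1 : ∃ b, S.sg (Sum.inr r) (Sum.inr b) ≠ 0 ∧ l = S.ix (Sum.inr r) (Sum.inr b)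
  · -- then the row `c` vanishes
    obtain ⟨b, hb, hlb⟩ := h1
    refine Matrix.det_eq_zero_of_row_eq_zero (Sum.inr 1) fun y => ?_
    rw [RingHom.mapMatrix_apply, Matrix.map_apply, Matrix.submatrix_apply]
    change axis l ((S.D lam hlam).mY c (tw κ r c y)) = 0
    refine S.axis_entry lam hlam l hl _ _ (S.Y1_row' hκc hcr y) fun hcy h3 => ?_
    rw [hlb] at h3
    rcases S.ix_inj _ _ _ _ hb hcy h3 with h4 | h4
    · exact hne (Sum.inr_injective h4.1)
    · apply hlt
      rw [hlb, Sum.inr_injective h4.2]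
  · refine Matrix.det_eq_zero_of_row_eq_zero (Sum.inr 0) fun y => ?_
    rw [RingHom.mapMatrix_apply, Matrix.map_apply, Matrix.submatrix_apply]
    change axis l ((S.D lam hlam).mY r (tw κ r c y)) = 0
    refine S.axis_entry lam hlam l hl _ _ (S.Y1_row hκr hrc y) fun hry h3 => ?_
    exact h1 ⟨_, hry, h3⟩

/-- the determinant along the axis of the coordinate -/
theorem axis_det (hz : S.ix (Sum.inr r) (Sum.inr c) ≠ (S.D lam hlam).z)
    (hκ : Function.Injective κ)
    (hκr : ∀ a b, r ≠ Sum.inl (κ a, b)) (hκc : ∀ a b, c ≠ Sum.inl (κ a, b))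
    (hrc : ∀ x, r = Sum.inl x → c ≠ Sum.inl (fl x))
    (hcr : ∀ x, c = Sum.inl x → r ≠ Sum.inl (fl x))
    (hsg : S.sg (Sum.inr r) (Sum.inr c) ≠ 0) :
    axis (S.ix (Sum.inr r) (Sum.inr c))
      (((S.D lam hlam).mY).submatrix (tw κ r c) (tw κ r c)).det
      = PowerSeries.C (jm (S.sp κ)).det * PowerSeries.X ^ 2 := by
  have hne : r ≠ c := fun h => S.ne_of_sg hsg (congrArg Sum.inr h)
  set l := S.ix (Sum.inr r) (Sum.inr c) with hl
  have hsub : (axis l).mapMatrix (((S.D lam hlam).mY).submatrix (tw κ r c) (tw κ r c))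
      = Matrix.fromBlocks ((PowerSeries.C : ℂ →+* PowerSeries ℂ).mapMatrix (jm (S.sp κ))) 0 0
        (Matrix.of ![![0, PowerSeries.C (S.sg (Sum.inr r) (Sum.inr c)) * PowerSeries.X],
          ![PowerSeries.C (S.sg (Sum.inr c) (Sum.inr r)) * PowerSeries.X, 0]]) := by
    have hxy : ∀ a b, S.sg (Sum.inr a) (Sum.inr b) ≠ 0 →
        ¬ ((a = r ∧ b = c) ∨ (a = c ∧ b = r)) → l ≠ S.ix (Sum.inr a) (Sum.inr b) := by
      intro a b hab h h1
      rcases S.ix_inj _ _ _ _ hsg hab h1 with h2 | h2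
      · exact h (Or.inl ⟨(Sum.inr_injective h2.1).symm, (Sum.inr_injective h2.2).symm⟩)
      · exact h (Or.inr ⟨(Sum.inr_injective h2.2).symm, (Sum.inr_injective h2.1).symm⟩)
    have hp1 : ∀ x : Fin q × Bool, pr κ x ≠ r := fun x h => hκr x.1 x.2 h.symm
    have hp2 : ∀ x : Fin q × Bool, pr κ x ≠ c := fun x h => hκc x.1 x.2 h.symm
    ext1 x y
    rw [RingHom.mapMatrix_apply, Matrix.map_apply, Matrix.submatrix_apply]
    rcases x with x | x <;> rcases y with y | y
    · rw [Matrix.fromBlocks_apply₁₁, RingHom.mapMatrix_apply, Matrix.map_apply,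
        (S.D lam hlam).axis_mY l hz, ← S.Y1_pr κ hκ, Matrix.submatrix_apply]
      change PowerSeries.C (S.Y1 (pr κ x) (pr κ y)) +
        PowerSeries.C (S.sg (Sum.inr (pr κ x)) (Sum.inr (pr κ y))) *
        (if l = S.ix (Sum.inr (pr κ x)) (Sum.inr (pr κ y)) then PowerSeries.X else 0) = _
      by_cases hab : S.sg (Sum.inr (pr κ x)) (Sum.inr (pr κ y)) = 0
      · rw [hab, map_zero, zero_mul, add_zero]
      · rw [if_neg (hxy _ _ hab fun h => ?_), mul_zero, add_zero]
        rcases h with h | h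
        · exact hp1 x h.1
        · exact hp2 x h.1
    · rw [Matrix.fromBlocks_apply₁₂, Matrix.zero_apply]
      fin_cases y
      · change axis l ((S.D lam hlam).mY (pr κ x) r) = 0
        refine S.axis_entry lam hlam l hz _ _ (S.Y1_zero _ _ fun z hz1 hz2 => ?_)
          fun hab => hxy _ _ hab fun h => ?_
        · have h3 : z = (κ x.1, x.2) := (Sum.inl_injective hz1).symm
          exact hκr x.1 (!x.2) (by rw [hz2, h3]; rfl)
        · rcases h with h | h
          · exact hp1 x h.1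
          · exact hp2 x h.1
      · change axis l ((S.D lam hlam).mY (pr κ x) c) = 0
        refine S.axis_entry lam hlam l hz _ _ (S.Y1_zero _ _ fun z hz1 hz2 => ?_)
          fun hab => hxy _ _ hab fun h => ?_
        · have h3 : z = (κ x.1, x.2) := (Sum.inl_injective hz1).symm
          exact hκc x.1 (!x.2) (by rw [hz2, h3]; rfl)
        · rcases h with h | h
          · exact hp1 x h.1
          · exact hp2 x h.1
    · rw [Matrix.fromBlocks_apply₂₁, Matrix.zero_apply]
      fin_cases x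
      · change axis l ((S.D lam hlam).mY r (pr κ y)) = 0
        refine S.axis_entry lam hlam l hz _ _ (S.Y1_row (c := c) hκr hrc (Sum.inl y))
          fun hab => hxy _ _ hab fun h => ?_
        rcases h with h | h
        · exact hp2 y h.2
        · exact hp1 y h.2
      · change axis l ((S.D lam hlam).mY c (pr κ y)) = 0
        refine S.axis_entry lam hlam l hz _ _ (S.Y1_row' (r := r) hκc hcr (Sum.inl y))
          fun hab => hxy _ _ hab fun h => ?_
        rcases h with h | h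
        · exact hp2 y h.2
        · exact hp1 y h.2
    · rw [Matrix.fromBlocks_apply₂₂]
      fin_cases x <;> fin_cases y
      · change axis l ((S.D lam hlam).mY r r) = 0
        exact S.axis_entry lam hlam l hz _ _ (S.Y1_row (c := c) hκr hrc (Sum.inr 0))
          fun h => absurd (S.sg_self _) h
      · change axis l ((S.D lam hlam).mY r c) = PowerSeries.C (S.sg (Sum.inr r) (Sum.inr c)) *
          PowerSeries.X
        rw [(S.D lam hlam).axis_mY l hz]
        change PowerSeries.C (S.Y1 r c) + PowerSeries.C (S.sg (Sum.inr r) (Sum.inr c)) *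
          (if l = S.ix (Sum.inr r) (Sum.inr c) then PowerSeries.X else 0) = _
        rw [S.Y1_zero r c hrc, if_pos rfl, map_zero, zero_add]
      · change axis l ((S.D lam hlam).mY c r) = PowerSeries.C (S.sg (Sum.inr c) (Sum.inr r)) *
          PowerSeries.X
        rw [(S.D lam hlam).axis_mY l hz]
        change PowerSeries.C (S.Y1 c r) + PowerSeries.C (S.sg (Sum.inr c) (Sum.inr r)) *
          (if l = S.ix (Sum.inr c) (Sum.inr r) then PowerSeries.X else 0) = _
        rw [S.Y1_zero c r hcr, if_pos (S.ix_symm _ _), map_zero, zero_add]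
      · change axis l ((S.D lam hlam).mY c c) = 0
        exact S.axis_entry lam hlam l hz _ _ (S.Y1_row' (r := r) hκc hcr (Sum.inr 1))
          fun h => absurd (S.sg_self _) h
  rw [RingHom.map_det, hsub, Matrix.det_fromBlocks_zero₂₁, ← RingHom.map_det, Matrix.det_fin_two]
  have h1 : S.sg (Sum.inr r) (Sum.inr c) * S.sg (Sum.inr c) (Sum.inr r) = -1 := by
    rw [S.sg_anti (Sum.inr r) (Sum.inr c), mul_neg,
      S.sg_sq _ _ hsg]
  have h2 : (PowerSeries.C (S.sg (Sum.inr r) (Sum.inr c)) : PowerSeries ℂ) *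
      PowerSeries.C (S.sg (Sum.inr c) (Sum.inr r)) = -1 := by
    rw [← map_mul, h1, map_neg, map_one]
  simp only [Matrix.of_apply, Matrix.cons_val', Matrix.cons_val_zero, Matrix.cons_val_one,
    Matrix.cons_val_fin_one]
  linear_combination (- PowerSeries.C (jm (S.sp κ)).det * PowerSeries.X ^ 2) * h2

variable {ξ : σ → MvPowerSeries σ ℂ}
  (hξ : (S.D lam hlam).IsChart ξ) {p : ℕ} {ι : Type} {f : ι → MvPolynomial σ ℂ}
  (hf : S.IsPf p f)

include hξ hf

/-- the coordinates which do not belong to a pair -/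
theorem gives_off (h0 : d < p) (h1 : p < d + (N + 2)) (r c : Tp N R)
    (hsg : S.sg (Sum.inr r) (Sum.inr c) ≠ 0)
    (hrc : ∀ x, r = Sum.inl x → c ≠ Sum.inl (fl x))
    (hcr : ∀ x, c = Sum.inl x → r ≠ Sum.inl (fl x))
    (hz : S.ix (Sum.inr r) (Sum.inr c) ≠ (S.D lam hlam).z) :
    Gives (S.D lam hlam).z ξ (p - d) f (S.ix (Sum.inr r) (Sum.inr c)) := by
  have hne : r ≠ c := fun h => S.ne_of_sg hsg (congrArg Sum.inr h)
  have hcA : Fintype.card (Fin d × Bool) = 2 * d := by
    simp [mul_comm]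
  obtain ⟨q, hq⟩ : ∃ q, p - d = q + 1 := ⟨p - d - 1, by omega⟩
  have hqn : q ≤ N := by omega
  set ri : Fin (N + 2) := Sum.elim (fun x => x.1) (fun _ => 0) r with hri
  set ci : Fin (N + 2) := Sum.elim (fun x => x.1) (fun _ => 0) c with hci
  obtain ⟨κ, hκ, hκ2⟩ : ∃ κ : Fin q → Fin (N + 2), Function.Injective κ ∧
      ∀ a, κ a ≠ ri ∧ κ a ≠ ci := by
    obtain ⟨κ, h1, h2⟩ := exists_avoid N ri ci
    exact ⟨fun a => κ (Fin.castLE hqn a), h1.comp (Fin.castLE_injective _), fun a => h2 _⟩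
  have hκr : ∀ a b, r ≠ Sum.inl (κ a, b) := by
    intro a b h
    apply (hκ2 a).1
    rw [hri, h]
    rfl
  have hκc : ∀ a b, c ≠ Sum.inl (κ a, b) := by
    intro a b h
    apply (hκ2 a).2
    rw [hci, h]
    rfl
  have hcQ : Fintype.card ((Fin q × Bool) ⊕ Fin 2) = 2 * (q + 1) := by
    rw [Fintype.card_sum, Fintype.card_prod, Fintype.card_fin, Fintype.card_bool,
      Fintype.card_fin]
    ring
  have eP : (Fin d × Bool) ⊕ ((Fin q × Bool) ⊕ Fin 2) ≃ Fin (2 * p) :=
    Fintype.equivOfCardEq (by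
      rw [Fintype.card_sum, hcA, hcQ, Fintype.card_fin]
      omega)
  obtain ⟨j, w, hw, hw'⟩ := S.exists_special lam hlam hξ hf hcQ eP (tw κ r c)
    (tw_inj hκ hne (fun x => hκr x.1 x.2) (fun x => hκc x.1 x.2))
  have hexc : (S.D lam hlam).IsExc (S.ix (Sum.inr r) (Sum.inr c)) :=
    ⟨r, c, hsg, rfl⟩
  have hax : axis (S.ix (Sum.inr r) (Sum.inr c)) w ^ 2
      = PowerSeries.C ((S.D lam hlam).A0.det * (jm (S.sp κ)).det) * PowerSeries.X ^ 2 := by
    rw [← map_pow, hw', map_mul, (S.D lam hlam).axis_detA _ hexc,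
      S.axis_det lam hlam hz hκ hκr hκc hrc hcr hsg, map_mul]
    ring
  have hcne : (S.D lam hlam).A0.det * (jm (S.sp κ)).det ≠ 0 := by
    refine mul_ne_zero (S.D lam hlam).hA0 fun h => ?_
    have h7 := det_jm (S.sp κ) (S.sp_sq κ hκ)
    rw [h, mul_zero] at h7
    exact zero_ne_one h7
  obtain ⟨h3, h4⟩ := coeff_one_of_sq _ _ hcne hax
  refine ⟨f j, Submodule.subset_span ⟨j, rfl⟩, w, ⟨?_, ?_, ?_⟩, ?_⟩
  · rw [← cc_axis]
    exact h3
  · rw [← coeff_axis]
    exact h4
  · intro l hl hlt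
    have h5 : axis l w ^ 2 = 0 := by
      rw [← map_pow, hw', map_mul,
        S.axis_det_zero lam hlam l hl hκ hκr hκc hrc hcr hsg hlt, mul_zero]
    rw [← coeff_axis, pow_eq_zero_iff two_ne_zero |>.1 h5, map_zero]
  · rw [hq]
    exact hw

end Sb

end Pool.Agent.J6H7.SK
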