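import Pool.Agent.J6H7.SK.PfOff
import Pool.Agent.TH192.DT.Pfaff

set_option autoImplicit false
set_option linter.unusedSectionVars false
set_option linter.unusedVariables false

/-! # The roots which come from the divisors of block diagonal skew symmetric matrices -/

namespace Pool.Agent.J6H7.SK

open MvPowerSeries Pool.Agent.W574.SM Pool.Agent.TH192.DT

namespace Sb

variable {R σ : Type} [Fintype R] [DecidableEq R] [Fintype σ] [DecidableEq σ] {d N : ℕ}
  (S : Sb d N R σ)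

/-- the coordinates of the base point, divided by `lam` -/
noncomputable def dl (t : σ) : ℂ :=
  S.sg (S.surj t).choose (S.surj t).choose_spec.choose *
    Matrix.fromBlocks S.A1 0 0 (0 : Matrix (Tp N R) (Tp N R) ℂ)
      (S.surj t).choose (S.surj t).choose_spec.choose

theorem cc_mX (lam : ℂ) (hlam : lam ≠ 0) (x y : (Fin d × Bool) ⊕ Tp N R) :
    constantCoeff ((S.D lam hlam).mX x y)
      = lam * Matrix.fromBlocks S.A1 0 0 (0 : Matrix (Tp N R) (Tp N R) ℂ) x y := by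
  have hv : ∀ x y, constantCoeff ((S.D lam hlam).v x y) = 0 := by
    intro x y
    rw [Mt.v, map_mul, constantCoeff_X, mul_zero]
  rcases x with a | r <;> rcases y with b | c
  · have h := congrFun (congrFun (S.D lam hlam).cc_mA a) b
    rw [RingHom.mapMatrix_apply, Matrix.map_apply] at h
    change constantCoeff ((S.D lam hlam).mA a b) = _
    rw [h]
    rfl
  · rw [Matrix.fromBlocks_apply₁₂, Matrix.zero_apply, mul_zero]
    exact hv _ _
  · rw [Matrix.fromBlocks_apply₂₁, Matrix.zero_apply, mul_zero]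
    exact hv _ _
  · rw [Matrix.fromBlocks_apply₂₂, Matrix.zero_apply, mul_zero]
    change constantCoeff (((S.D lam hlam).mC * (S.D lam hlam).mA⁻¹ * (S.D lam hlam).mB) r c +
      X (S.D lam hlam).z * (S.D lam hlam).mY r c) = 0
    rw [map_add, map_mul, constantCoeff_X, zero_mul, add_zero, Matrix.mul_apply, map_sum]
    refine Finset.sum_eq_zero fun j _ => ?_
    rw [map_mul]
    have h1 : constantCoeff ((S.D lam hlam).mB j c) = 0 := hv _ _
    rw [h1, mul_zero]

theorem cc_xi {lam : ℂ} {hlam : lam ≠ 0} {ξ : σ → MvPowerSeries σ ℂ}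
    (hξ : (S.D lam hlam).IsChart ξ) (t : σ) : constantCoeff (ξ t) = lam * S.dl t := by
  obtain ⟨h0, h1⟩ := (S.surj t).choose_spec.choose_spec
  have h2 := (S.D lam hlam).ξ_eq hξ (S.surj t).choose (S.surj t).choose_spec.choose h0
  have h3 : (S.D lam hlam).ix (S.surj t).choose (S.surj t).choose_spec.choose = t := h1.symm
  rw [h3] at h2
  rw [h2, map_mul, constantCoeff_C, S.cc_mX, dl]
  change S.sg _ _ * _ = _
  ring

/-- the exceptional coordinates -/
theorem gives_all (lam : ℂ) (hlam : lam ≠ 0) {ξ : σ → MvPowerSeries σ ℂ}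
    (hξ : (S.D lam hlam).IsChart ξ) {p : ℕ} {ι : Type} {f : ι → MvPolynomial σ ℂ}
    (hf : S.IsPf p f) (h0 : d < p) (h1 : p < d + (N + 2)) (t : σ)
    (ht : t ≠ (S.D lam hlam).z) (hexc : (S.D lam hlam).IsExc t) :
    Gives (S.D lam hlam).z ξ (p - d) f t := by
  obtain ⟨r, c, hsg, rfl⟩ := hexc
  change S.sg (Sum.inr r) (Sum.inr c) ≠ 0 at hsg
  change S.ix (Sum.inr r) (Sum.inr c) ≠ (S.D lam hlam).z at ht
  change Gives (S.D lam hlam).z ξ (p - d) f (S.ix (Sum.inr r) (Sum.inr c))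
  have hne : r ≠ c := fun h => S.ne_of_sg hsg (by rw [h])
  by_cases hp : ∃ x, r = Sum.inl x ∧ c = Sum.inl (fl x)
  · obtain ⟨⟨i, b⟩, rfl, rfl⟩ := hp
    have h2 : S.ix (Sum.inr (Sum.inl (i, b))) (Sum.inr (Sum.inl (fl (i, b)))) = S.cd i := by
      cases b
      · rfl
      · exact S.ix_symm _ _
    rw [h2] at ht ⊢
    refine S.gives_pair lam hlam hξ hf h0 h1 i ?_
    rintro rfl
    exact ht rfl
  · refine S.gives_off lam hlam hξ hf h0 h1 r c hsg ?_ ?_ ht
    · intro x hx hc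
      exact hp ⟨x, hx, hc⟩
    · intro x hx hr
      exact hp ⟨fl x, hr, by rw [fl_fl]; exact hx⟩

/-- **The roots.** -/
theorem roots {τ : Type} [Fintype τ] [DecidableEq τ] {κ : τ → Type} [∀ t, Fintype (κ t)]
    (p : τ → ℕ) (f : (t : τ) → κ t → MvPolynomial σ ℂ) (hf : ∀ t, S.IsPf (p t) (f t))
    {κ1 : Type} (f1 : κ1 → MvPolynomial σ ℂ) (hf1 : S.IsPf (d + 1) f1)
    (hp : ∀ t, p t ≤ d + (N + 2)) (t0 : τ) (h0 : d < p t0)
    (h1 : p t0 < d + (N + 2)) (b : Polynomial ℂ) (H : MvPolynomial σ ℂ)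
    (hb : Pool.Agent.W574.LM.IsLocEq H (prodFam f) b)
    (hH : MvPolynomial.constantCoeff H ≠ 0)
    (hchart : ∀ (lam : ℂ) (hlam : lam ≠ 0), ∃ ξ, (S.D lam hlam).IsChart ξ)
    (l : ℕ) (hl : l < ∑ t, (p t - d)) (ν : ℕ)
    (hν : Nat.card {t // ∃ r c, S.sg (Sum.inr r) (Sum.inr c) ≠ 0 ∧
      t = S.ix (Sum.inr r) (Sum.inr c)} = ν) :
    b.eval (-((ν : ℂ) + l) / (∑ t, (p t - d) : ℕ)) = 0 := by
  classical
  obtain ⟨lam, hlam, hlH⟩ := exists_scale H hH S.dl
  obtain ⟨ξ, hξ⟩ := hchart lam hlam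
  obtain ⟨_, F, _, U, hU, hFU⟩ := S.hasOrd_pf lam hlam hξ hf1 (by omega)
  rw [Nat.add_sub_cancel_left] at hFU
  refine (S.D lam hlam).main hξ _ b H hb ?_ _ l hl
    (hasOrd_prod _ ξ _ _ fun t => S.hasOrd_pf lam hlam hξ (hf t) (hp t)) ?_ F U hU hFU ν ?_
  · rw [cc_aeval]
    have h2 : (fun t => constantCoeff (ξ t)) = fun t => lam * S.dl t := by
      funext t
      exact S.cc_xi hξ t
    rw [h2]
    exact hlH
  · intro t ht hexc
    exact gives_prod _ ξ _ _ (fun t => S.hasOrd_pf lam hlam hξ (hf t) (hp t)) t0 t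
      (S.gives_all lam hlam hξ (hf t0) h0 h1 t ht hexc)
  · rw [← hν, ← Nat.card_eq_fintype_card]
    exact Nat.card_congr (Equiv.refl _)

end Sb

end Pool.Agent.J6H7.SK
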