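import Pool.Agent.TH192.DT.Skew

set_option autoImplicit false
set_option linter.unusedSectionVars false
set_option linter.unusedVariables false

/-! # The chart for block diagonal skew symmetric matrices -/

namespace Pool.Agent.J6H7.SK

open MvPowerSeries Pool.Agent.W574.SM Pool.Agent.TH192.DT

/-- The data of a skew symmetric matrix some entries of which vanish: `d` pairs of rows in the block
`A`, `N + 2` pairs of rows and the rows `R` in the exceptional block; the entries of the pairs do not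
vanish. -/
structure Sb (d N : ℕ) (R σ : Type) where
  ix : (Fin d × Bool) ⊕ Tp N R → (Fin d × Bool) ⊕ Tp N R → σ
  sg : (Fin d × Bool) ⊕ Tp N R → (Fin d × Bool) ⊕ Tp N R → ℂ
  sg_sq : ∀ x y, sg x y ≠ 0 → sg x y * sg x y = 1
  sg_anti : ∀ x y, sg y x = - sg x y
  ix_symm : ∀ x y, ix x y = ix y x
  ix_inj : ∀ x y x' y', sg x y ≠ 0 → sg x' y' ≠ 0 → ix x y = ix x' y' →
    (x = x' ∧ y = y') ∨ (x = y' ∧ y = x')
  surj : ∀ t, ∃ x y, sg x y ≠ 0 ∧ t = ix x y
  parA : ∀ a, sg (Sum.inl a) (Sum.inl (fl a)) ≠ 0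
  parT : ∀ a, sg (Sum.inr (Sum.inl a)) (Sum.inr (Sum.inl (fl a))) ≠ 0

namespace Sb

variable {R σ : Type} [Fintype R] [DecidableEq R] [Fintype σ] [DecidableEq σ] {d N : ℕ}
  (S : Sb d N R σ)

theorem sg_self (x : (Fin d × Bool) ⊕ Tp N R) : S.sg x x = 0 := by
  have h := S.sg_anti x x
  have h2 : (2 : ℂ) * S.sg x x = 0 := by linear_combination h
  exact (mul_eq_zero.1 h2).resolve_left two_ne_zero

theorem ne_of_sg {x y : (Fin d × Bool) ⊕ Tp N R} (h : S.sg x y ≠ 0) : x ≠ y := by
  rintro rfl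
  exact h (S.sg_self x)

/-- the base point of the block `A`, for `lam = 1` -/
noncomputable def A1 : Matrix (Fin d × Bool) (Fin d × Bool) ℂ :=
  jm fun a b => S.sg (Sum.inl a) (Sum.inl b)

/-- the base point of the exceptional block -/
noncomputable def Y1 : Matrix (Tp N R) (Tp N R) ℂ :=
  Matrix.fromBlocks (jm fun a b => S.sg (Sum.inr (Sum.inl a)) (Sum.inr (Sum.inl b))) 0 0 0

theorem det_A1 : S.A1.det * S.A1.det = 1 :=
  det_jm _ fun x => S.sg_sq _ _ (S.parA x)

/-- the matrix of variables with the base point -/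
noncomputable def D (lam : ℂ) (hlam : lam ≠ 0) : Mt (Fin d × Bool) (Tp N R) (Tp N R) σ where
  ix := S.ix
  sg := S.sg
  sg_sq := S.sg_sq
  surj := S.surj
  exc := fun r c x y h1 h2 h => by
    rcases S.ix_inj _ _ _ _ h1 h2 h with h | h
    · exact ⟨⟨r, h.1.symm⟩, ⟨c, h.2.symm⟩⟩
    · exact ⟨⟨c, h.2.symm⟩, ⟨r, h.1.symm⟩⟩
  A0 := lam • S.A1
  hA0 := by
    rw [Matrix.det_smul]
    refine mul_ne_zero (pow_ne_zero _ hlam) ?_
    intro h
    have h1 := S.det_A1
    rw [h, mul_zero] at h1
    exact zero_ne_one h1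
  Y0 := S.Y1
  r0 := Sum.inl (Fin.last _, false)
  c0 := Sum.inl (Fin.last _, true)
  sg0 := S.parT (Fin.last _, false)
  Y0z := fun r c h1 h => by
    rcases S.ix_inj _ _ _ _ h1 (S.parT (Fin.last _, false)) h with h | h
    · rw [Sum.inr_injective h.1, Sum.inr_injective h.2, Y1, Matrix.fromBlocks_apply₁₁, jm,
        Matrix.of_apply]
      exact if_pos (by simp [fl])
    · rw [Sum.inr_injective h.1, Sum.inr_injective h.2, Y1, Matrix.fromBlocks_apply₁₁, jm,
        Matrix.of_apply]
      exact if_pos (by simp [fl])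

variable (lam : ℂ) (hlam : lam ≠ 0)

/-- the chart is skew symmetric -/
theorem skew : (S.D lam hlam).mX.transpose = - (S.D lam hlam).mX := by
  have hv : ∀ x y, (S.D lam hlam).v y x = - (S.D lam hlam).v x y := by
    intro x y
    change MvPowerSeries.C (S.sg y x) * X (S.ix y x) = - (MvPowerSeries.C (S.sg x y) * X (S.ix x y))
    rw [S.sg_anti, S.ix_symm, map_neg, neg_mul]
  have hjm : ∀ (Q : Type) [DecidableEq Q] (s : Q × Bool → Q × Bool → ℂ)
      (hs : ∀ x y, s y x = - s x y) (x y : Q × Bool), jm s y x = - jm s x y := by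
    intro Q _ s hs x y
    rw [jm, Matrix.of_apply, Matrix.of_apply]
    by_cases h : x = fl y
    · have h' : y = fl x := by rw [h, fl_fl]
      rw [if_pos h, if_pos h', hs]
    · have h' : ¬ y = fl x := fun h' => h (by rw [h', fl_fl])
      rw [if_neg h, if_neg h', neg_zero]
  have hA : (S.D lam hlam).mA.transpose = - (S.D lam hlam).mA := by
    ext1 a b
    rw [Matrix.transpose_apply, Matrix.neg_apply, Mt.mA, Matrix.add_apply, Matrix.add_apply,
      Matrix.of_apply, Matrix.of_apply, hv, neg_add]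
    congr 1
    rw [Matrix.map_apply, Matrix.map_apply, ← map_neg]
    congr 1
    change (lam • S.A1) b a = - (lam • S.A1) a b
    rw [Matrix.smul_apply, Matrix.smul_apply, A1, hjm _ _ (fun x y => S.sg_anti _ _), smul_neg]
  have hB : (S.D lam hlam).mB.transpose = - (S.D lam hlam).mC := by
    ext1 a b
    exact hv _ _
  have hC : (S.D lam hlam).mC.transpose = - (S.D lam hlam).mB := by
    ext1 a b
    exact hv _ _
  have hY : (S.D lam hlam).mY.transpose = - (S.D lam hlam).mY := by
    ext1 r c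
    rw [Matrix.transpose_apply, Matrix.neg_apply, Mt.mY, Matrix.of_apply, Matrix.of_apply, hv,
      neg_add]
    have h1 : (S.D lam hlam).ix (Sum.inr c) (Sum.inr r)
        = (S.D lam hlam).ix (Sum.inr r) (Sum.inr c) := S.ix_symm _ _
    rw [h1, ← map_neg]
    congr 1
    · congr 1
      change S.Y1 c r = - S.Y1 r c
      rcases r with r | r <;> rcases c with c | c
      · exact hjm (Fin (N + 2)) (fun a b => S.sg (Sum.inr (Sum.inl a)) (Sum.inr (Sum.inl b)))
          (fun x y => S.sg_anti _ _) r c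
      · rw [Y1, Matrix.fromBlocks_apply₂₁, Matrix.fromBlocks_apply₁₂, Matrix.zero_apply,
          Matrix.zero_apply, neg_zero]
      · rw [Y1, Matrix.fromBlocks_apply₂₁, Matrix.fromBlocks_apply₁₂, Matrix.zero_apply,
          Matrix.zero_apply, neg_zero]
      · rw [Y1, Matrix.fromBlocks_apply₂₂, Matrix.fromBlocks_apply₂₂, Matrix.zero_apply,
          Matrix.zero_apply, neg_zero]
    · split_ifs
      · rw [neg_zero]
      · rfl
  have hAi : (S.D lam hlam).mA⁻¹.transpose = - (S.D lam hlam).mA⁻¹ := by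
    rw [Matrix.transpose_nonsing_inv, hA]
    have h1 : (- (S.D lam hlam).mA) * (- (S.D lam hlam).mA⁻¹) = 1 := by
      rw [Matrix.neg_mul, Matrix.mul_neg, neg_neg, Matrix.mul_nonsing_inv _ (S.D lam hlam).mA_unit]
    exact Matrix.inv_eq_right_inv h1
  rw [Mt.mX, Matrix.fromBlocks_transpose, Matrix.fromBlocks_neg, hA, hB, hC, Matrix.transpose_add,
    Matrix.transpose_smul, hY, Matrix.transpose_mul, Matrix.transpose_mul, hB, hC, hAi,
    neg_add, smul_neg]
  congr 2
  rw [Matrix.neg_mul, Matrix.neg_mul, Matrix.mul_neg, neg_neg, Matrix.mul_assoc, Matrix.mul_neg,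
    Matrix.mul_neg]

end Sb

end Pool.Agent.J6H7.SK
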