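import Pool.Agent.J6H7.SK.Main

set_option autoImplicit false
set_option linter.unusedSectionVars false
set_option linter.unusedVariables false

/-! # Block diagonal skew symmetric matrices: the zeta functions -/

namespace Pool.Agent.J6H7.SK

open MvPolynomial Pool.Agent.W574.SM Pool.Agent.W574.LM Pool.Agent.H628R4.TP
  Pool.Agent.W574.HS Pool.Agent.TH192.DT Pool.Agent.TH192.MT Pool.Agent.R852.MX
  Pool.Agent.W428.MOT Pool.Agent.TH192.MU Pool.Agent.TH192.PA Pool.Agent.Helper929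
  Pool.Agent.J6H7.BD

variable {N k : ℕ} (c : Fin N → Fin k)

/-- the generators -/
noncomputable def skG {T : ℕ} (p : Fin T → ℕ) (t : Fin T) (j : PIdx N (p t)) :
    MvPolynomial (SVar c) ℤ := pfaf c (p t) j

theorem DK_top {T : ℕ} (p : Fin T → ℕ) (hp : ∀ t, p t < rkC c) :
    DK (bsz c) p ⊆ dpr (fun d : SLoc c => d.codim) fun d t => p t - d.sum := by
  rintro q ⟨d, hd, ⟨t, ht⟩, rfl⟩
  have hrk : ∀ b, d b ≤ bsz c b / 2 := fun b => by have := hd b; omega
  have hex : ∃ b, d b < bsz c b / 2 := by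
    by_contra h
    push Not at h
    have h1 : ∑ b, d b = rkC c := Finset.sum_congr rfl fun b _ => le_antisymm (hrk b) (h b)
    have h2 := hp t
    omega
  let d' : SLoc c := ⟨fun b => ⟨d b, Nat.lt_succ_of_le (hrk b)⟩, hex⟩
  exact ⟨d', ⟨t, ht⟩, rfl⟩

/-- **The zeta functions of the Pfaffians are rational.** -/
theorem sk_ratS (K : Type) [Field K] {T : ℕ} (p : Fin T → ℕ) (hp : ∀ t, p t < rkC c) :
    RatS K (dpr (fun d : SLoc c => d.codim) fun d t => p t - d.sum) (gSys (skG c p)) := by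
  have h1 := sk_rat K (bsz c) p _ (Fin N) c (fun _ => 0) rfl (fun b => by simp)
    (fun b => by rw [rN_top]; rfl)
  have h0 : (fun t => p t - ∑ _b : Fin k, 0) = p := by
    funext t
    simp
  rw [h0] at h1
  refine ratS_mono (DK_top c p hp) (ratS_change (Xs := gSys (skG c p))
    (Ys := kSys (bM c) p) (Equiv.refl _) ?_ h1)
  intro A _ x t
  refine Eq.trans ?_ (fI_kSys (bM c) p x t).symm
  have key : ∀ l : (gSys (skG c p)).Λ, ev x ((gSys (skG c p)).G l) =
      pf (2 * p l.1) (((bM c).map (ev x)).submatrix l.2 l.2) := by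
    intro l
    exact pf_map (ev x) _ ((skewZ c).submatrix l.2 l.2)
  refine le_antisymm (Ideal.span_le.2 ?_) (pfI_sorted _ (bM_alt c x) _ fun r => ?_)
  · rintro y ⟨l, rfl, rfl⟩
    rw [SetLike.mem_coe, key l]
    exact pf_mem _ _
  · exact Ideal.subset_span ⟨⟨t, r⟩, rfl, (key ⟨t, r⟩).symm⟩

/-- the roots -/
theorem sk_sys {T : ℕ} (p : Fin T → ℕ) (hp : ∀ t, p t < rkC c) :
    RootSys (σ := SVar c) (κ := fun t => PIdx N (p t))
      (fun t j => map (Int.castRingHom ℂ) (skG c p t j))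
      (fun d : SLoc c => d.codim) (fun d t => p t - d.sum) := sysS c p hp

theorem skFormZ_eq {T B : ℕ} (p : Fin T → ℕ) (β : Fin T → Fin B) (a : Fin B → ℕ) :
    skFormZ c p β a = gForm (skG c p) β a := rfl

/-- **The motivic form.** -/
theorem sk_mot {T B : ℕ} (p : Fin T → ℕ) (β : Fin T → Fin B) (a : Fin B → ℕ)
    (hp : ∀ t, p t < rkC c) : ∃ P : Finset (ℤ × ℤ), (∀ q ∈ P, q.1 < 0 ∧ 0 < q.2 ∧
      (∀ b : Polynomial ℂ, IsBFunction (skK c ℂ p β a) b → b.eval ((q.1 : ℂ) / q.2) = 0) ∧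
      ∀ b : Polynomial ℂ, IsLocalBFunction (skK c ℂ p β a) b →
        b.eval ((q.1 : ℂ) / q.2) = 0) ∧
    ∀ (R : Type) [CommRing R] (u : Rˣ) (c' : Finset {i // 0 < skMul c p β a i} → R),
      dlZ u (skNu c B) (skMul c p β a) c' ∈ ratU u (P : Set (ℤ × ℤ)) := by
  have h2 : skK c ℂ p β a =
      powProd a (blkF (fun t j => map (Int.castRingHom ℂ) (skG c p t j)) β) := by
    unfold skK
    rw [skFormZ_eq]
    exact map_gForm (g := skG c p) β a
  rw [h2]
  exact motX (sk_sys c p hp) β a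

end Pool.Agent.J6H7.SK
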